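import Mathlib

set_option autoImplicit false

/-!
Quasi-identities of associative algebras and the varieties `M(n)` and `S(n)`.
-/

namespace Pool.Agent.H234EP

universe u v w

/-- A noncommutative polynomial without constant term, in the variables `x_i`, `i : ℕ`, with
coefficients in `K`: the list of its terms. The term `(c, i, [j, ..., k])` stands for the monomial
`c x_i x_j ... x_k`. -/
abbrev NCPoly (K : Type u) : Type u := List (K × ℕ × List ℕ)

/-- The product of a nonempty list of elements (the value on the empty list is irrelevant). -/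
def nprod {A : Type v} [NonUnitalRing A] : List A → A
  | [] => 0
  | x :: l => l.foldl (· * ·) x

/-- The value of a polynomial at the elements `a 0, a 1, ...` of an algebra. -/
def eval {K : Type u} {A : Type v} [NonUnitalRing A] [SMul K A] (a : ℕ → A) (f : NCPoly K) : A :=
  (f.map fun t => t.1 • nprod (a t.2.1 :: t.2.2.map a)).sum

/-- A polynomial with rational coefficients, read as a polynomial over `F`. -/
def castPoly (F : Type u) [Field F] (f : NCPoly ℚ) : NCPoly F :=
  f.map fun t => ((t.1 : F), t.2)

/-- A quasi-identity `u_1 = 0 ∧ ... ∧ u_k = 0 → u = 0`, with rational coefficients: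
the pair `([u_1, ..., u_k], u)`. -/
abbrev QuasiId : Type := List (NCPoly ℚ) × NCPoly ℚ

/-- The quasi-identity `q` holds in the `F`-algebra `A`. -/
def Holds (F : Type u) [Field F] (A : Type v) [NonUnitalRing A] [Module F A] (q : QuasiId) : Prop :=
  ∀ a : ℕ → A, (∀ f ∈ q.1, eval a (castPoly F f) = 0) → eval a (castPoly F q.2) = 0

/-- The algebra `A` belongs to the variety `M(n)`: it satisfies every polynomial identity
of the algebra of `n × n` matrices over `F`. -/
def InM (F : Type u) [Field F] (n : ℕ) (A : Type v) [NonUnitalRing A] [Module F A] : Prop :=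
  ∀ f : NCPoly F, (∀ a : ℕ → Matrix (Fin n) (Fin n) F, eval a f = 0) → ∀ a : ℕ → A, eval a f = 0

/-- The algebra `A` belongs to the variety `S(n)`: it satisfies the standard identity of
degree `n`. -/
def InS (n : ℕ) (A : Type v) [NonUnitalRing A] : Prop :=
  ∀ x : Fin n → A, ∑ σ : Equiv.Perm (Fin n),
    (Equiv.Perm.sign σ : ℤ) • nprod (List.ofFn fun i => x (σ i)) = 0

/-- The quasi-identity `q` holds in every algebra of `M(n)`. -/
def HoldsM (F : Type u) [Field F] (n : ℕ) (q : QuasiId) : Prop :=
  ∀ (A : Type u) [NonUnitalRing A] [Module F A] [IsScalarTower F A A] [SMulCommClass F A A],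
    InM F n A → Holds F A q

/-- The quasi-identity `q` holds in every algebra with unit of `M(n)`. -/
def HoldsM1 (F : Type u) [Field F] (n : ℕ) (q : QuasiId) : Prop :=
  ∀ (A : Type u) [Ring A] [Algebra F A], InM F n A → Holds F A q

/-- The quasi-identity `q` holds in every algebra of `S(n)`. -/
def HoldsS (F : Type u) [Field F] (n : ℕ) (q : QuasiId) : Prop :=
  ∀ (A : Type u) [NonUnitalRing A] [Module F A] [IsScalarTower F A A] [SMulCommClass F A A],
    InS n A → Holds F A q

end Pool.Agent.H234EP
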