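import Mathlib
import Pool.Agent.H234EP.Defs

set_option autoImplicit false

/-! Identities of matrix algebras. -/

namespace Pool.Agent.H234EP

universe u v w

section transfer

variable {F : Type u} [Field F]

theorem map_foldl {A : Type v} [NonUnitalRing A] {B : Type w} [NonUnitalRing B] (g : A → B)
    (hm : ∀ x y, g (x * y) = g x * g y) (l : List A) : ∀ x : A,
    g (l.foldl (· * ·) x) = (l.map g).foldl (· * ·) (g x) := by
  induction l with
  | nil => intro x; rfl
  | cons y l ih => intro x; rw [List.foldl_cons, ih, hm, List.map_cons, List.foldl_cons]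

theorem map_nprod {A : Type v} [NonUnitalRing A] {B : Type w} [NonUnitalRing B] (g : A → B)
    (hm : ∀ x y, g (x * y) = g x * g y) (h0 : g 0 = 0) (l : List A) :
    g (nprod l) = nprod (l.map g) := by
  rcases l with _ | ⟨x, l⟩
  · exact h0
  · exact map_foldl g hm l x

theorem map_eval {A : Type v} [NonUnitalRing A] [Module F A] {B : Type w} [NonUnitalRing B]
    [Module F B] (g : A →ₙₐ[F] B) (a : ℕ → A) (f : NCPoly F) :
    g (eval a f) = eval (fun i => g (a i)) f := by
  unfold eval
  rw [map_list_sum, List.map_map]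
  congr 1
  refine List.map_congr_left fun t _ => ?_
  simp only [Function.comp_apply]
  rw [map_smul, map_nprod g (map_mul g) (map_zero g), List.map_cons, List.map_map]
  rfl

/-- The identities of the matrices over `F` hold for the matrices over every commutative
`F`-algebra. -/
theorem ident_transfer [Infinite F] {n : ℕ} {R : Type v} [CommRing R] [Algebra F R] (f : NCPoly F)
    (hf : ∀ a : ℕ → Matrix (Fin n) (Fin n) F, eval a f = 0)
    (b : ℕ → Matrix (Fin n) (Fin n) R) : eval b f = 0 := by
  let g : ℕ → Matrix (Fin n) (Fin n) (MvPolynomial (ℕ × Fin n × Fin n) F) := fun k =>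
    Matrix.of fun i j => MvPolynomial.X (k, i, j)
  have h0 : eval g f = 0 := by
    ext1 i j
    refine MvPolynomial.funext fun p => ?_
    have h1 := map_eval (F := F)
      ((MvPolynomial.aeval p : MvPolynomial (ℕ × Fin n × Fin n) F →ₐ[F] F).mapMatrix
        (m := Fin n)).toNonUnitalAlgHom g f
    rw [hf] at h1
    have h2 := congrFun (congrFun h1 i) j
    simp only [Matrix.zero_apply, map_zero]
    rw [← MvPolynomial.coe_aeval_eq_eval]
    exact h2
  have h1 := map_eval (F := F)
      ((MvPolynomial.aeval (fun t : ℕ × Fin n × Fin n => b t.1 t.2.1 t.2.2) :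
        MvPolynomial (ℕ × Fin n × Fin n) F →ₐ[F] R).mapMatrix
        (m := Fin n)).toNonUnitalAlgHom g f
  rw [h0, map_zero] at h1
  rw [h1]
  congr 1
  funext k
  ext i j
  exact (MvPolynomial.aeval_X (R := F) (fun t : ℕ × Fin n × Fin n => b t.1 t.2.1 t.2.2)
    (k, i, j)).symm

end transfer

section std

variable {R : Type u} [CommRing R]

/-- The entries of a product of matrices, as sums over paths. -/
theorem entry_prod {V : Type} [Fintype V] [DecidableEq V] : ∀ (n : ℕ)
    (Y : Fin n → Matrix V V R) (i j : V), (List.ofFn Y).prod i j =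
      ∑ p : Fin (n + 1) → V, if p 0 = i ∧ p (Fin.last n) = j then
        ∏ k : Fin n, Y k (p k.castSucc) (p k.succ) else 0 := by
  intro n
  induction n with
  | zero =>
    intro Y i j
    rw [List.ofFn_zero, List.prod_nil, Matrix.one_apply]
    rw [Fintype.sum_equiv (Equiv.funUnique (Fin 1) V) _
      (fun v => if v = i ∧ v = j then (1 : R) else 0)]
    · by_cases h : i = j
      · subst h
        simp
      · rw [if_neg h, Finset.sum_eq_zero]
        intro v _
        rw [if_neg]
        rintro ⟨rfl, rfl⟩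
        exact h rfl
    · intro p
      simp [Equiv.funUnique]
  | succ n ih =>
    intro Y i j
    rw [List.ofFn_succ, List.prod_cons, Matrix.mul_apply]
    rw [← (Fin.consEquiv fun _ => V).sum_comp, Fintype.sum_prod_type]
    simp only [ih, Finset.mul_sum]
    rw [Finset.sum_comm]
    rw [Finset.sum_comm (s := (Finset.univ : Finset V)) (t := Finset.univ)]
    refine Finset.sum_congr rfl fun p _ => ?_
    have e1 : ∀ x : V, (Fin.consEquiv fun _ => V) (x, p) = (Fin.cons x p : Fin (n + 2) → V) :=
      fun x => rfl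
    simp only [e1, Fin.cons_zero, Fin.prod_univ_succ, Fin.castSucc_zero, Fin.cons_succ]
    have e2 : ∀ x : V, (Fin.cons x p : Fin (n + 2) → V) (Fin.last (n + 1)) = p (Fin.last n) :=
      fun x => by rw [← Fin.succ_last, Fin.cons_succ]
    have e3 : ∀ (x : V) (k : Fin n), (Fin.cons x p : Fin (n + 2) → V) (k.succ.castSucc) =
        p k.castSucc := fun x k => by rw [← Fin.succ_castSucc, Fin.cons_succ]
    simp only [e2, e3]
    by_cases hj : p (Fin.last n) = j
    · rw [Finset.sum_eq_single (p 0), Finset.sum_eq_single i]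
      · simp [hj]
      · intro x _ hx
        rw [if_neg]
        exact fun h => hx h.1
      · simp
      · intro x _ hx
        rw [if_neg, mul_zero]
        exact fun h => hx h.1.symm
      · simp
    · rw [Finset.sum_eq_zero, Finset.sum_eq_zero]
      · intro x _
        rw [if_neg]
        exact fun h => hj h.2
      · intro x _
        rw [if_neg, mul_zero]
        exact fun h => hj h.2

/-- The matrices considered: upper triangular with zeros in the corners of the diagonal. -/
def InD (X : Matrix (Fin 4) (Fin 4) R) : Prop :=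
  (∀ i j, j < i → X i j = 0) ∧ X 0 0 = 0 ∧ X 3 3 = 0

/-- The standard identities of degree at least six hold for these matrices. -/
theorem std_zero {n : ℕ} (hn : 6 ≤ n) (X : Fin n → Matrix (Fin 4) (Fin 4) R)
    (hX : ∀ i, InD (X i)) :
    ∑ σ : Equiv.Perm (Fin n), (Equiv.Perm.sign σ : ℤ) • (List.ofFn fun i => X (σ i)).prod = 0 := by
  ext i j
  rw [Matrix.sum_apply]
  simp only [Matrix.smul_apply, entry_prod, Matrix.zero_apply, Finset.smul_sum]
  rw [Finset.sum_comm]
  refine Finset.sum_eq_zero fun p _ => ?_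
  by_cases hp : p 0 = i ∧ p (Fin.last n) = j
  swap
  · simp [hp]
  simp only [if_pos hp]
  have hdet := Matrix.det_apply (Matrix.of fun (i k : Fin n) => X i (p k.castSucc) (p k.succ))
  simp only [Matrix.of_apply] at hdet
  have hd : (Matrix.of fun (i k : Fin n) => X i (p k.castSucc) (p k.succ)).det = 0 := by
    by_contra hne
    have hcol : ∀ k : Fin n, (p k.castSucc ≤ p k.succ) ∧
        ¬ (p k.castSucc = 0 ∧ p k.succ = 0) ∧ ¬ (p k.castSucc = 3 ∧ p k.succ = 3) := by
      intro k
      refine ⟨?_, ?_, ?_⟩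
      · by_contra h
        apply hne
        refine Matrix.det_eq_zero_of_column_eq_zero k fun i => ?_
        exact (hX i).1 _ _ (not_le.1 h)
      · rintro ⟨h1, h2⟩
        apply hne
        refine Matrix.det_eq_zero_of_column_eq_zero k fun i => ?_
        rw [Matrix.of_apply, h1, h2]
        exact (hX i).2.1
      · rintro ⟨h1, h2⟩
        apply hne
        refine Matrix.det_eq_zero_of_column_eq_zero k fun i => ?_
        rw [Matrix.of_apply, h1, h2]
        exact (hX i).2.2
    have hcc : ∀ k l : Fin n, k ≠ l → ¬ (p k.castSucc = p l.castSucc ∧ p k.succ = p l.succ) := by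
      rintro k l hkl ⟨h1, h2⟩
      apply hne
      refine Matrix.det_zero_of_column_eq hkl fun i => ?_
      rw [Matrix.of_apply, Matrix.of_apply, h1, h2]
    let q : ℕ → ℕ := fun k => if h : k < n + 1 then (p ⟨k, h⟩ : ℕ) else 0
    have hq : ∀ k, k < n + 1 → ∀ h : k < n + 1, q k = (p ⟨k, h⟩ : ℕ) := by
      intro k hk h
      simp only [q]
      rw [dif_pos h]
    have hc1 : ∀ k, k < n → q k ≤ q (k + 1) ∧ ¬ (q k = 0 ∧ q (k + 1) = 0) ∧
        ¬ (q k = 3 ∧ q (k + 1) = 3) := by
      intro k hk
      have h := hcol ⟨k, hk⟩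
      rw [hq k (by omega) (by omega), hq (k + 1) (by omega) (by omega)]
      have e1 : (⟨k, hk⟩ : Fin n).castSucc = ⟨k, by omega⟩ := rfl
      have e2 : (⟨k, hk⟩ : Fin n).succ = ⟨k + 1, by omega⟩ := rfl
      rw [e1, e2] at h
      simp only [Fin.ext_iff, Fin.le_def] at h
      exact h
    have hc2 : ∀ k l, k < n → l < n → k ≠ l → ¬ (q k = q l ∧ q (k + 1) = q (l + 1)) := by
      intro k l hk hl hkl
      have h := hcc ⟨k, hk⟩ ⟨l, hl⟩ (by simpa [Fin.ext_iff] using hkl)
      rw [hq k (by omega) (by omega), hq (k + 1) (by omega) (by omega),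
        hq l (by omega) (by omega), hq (l + 1) (by omega) (by omega)]
      have e1 : (⟨k, hk⟩ : Fin n).castSucc = ⟨k, by omega⟩ := rfl
      have e2 : (⟨k, hk⟩ : Fin n).succ = ⟨k + 1, by omega⟩ := rfl
      have e3 : (⟨l, hl⟩ : Fin n).castSucc = ⟨l, by omega⟩ := rfl
      have e4 : (⟨l, hl⟩ : Fin n).succ = ⟨l + 1, by omega⟩ := rfl
      rw [e1, e2, e3, e4] at h
      simp only [Fin.ext_iff] at h
      exact h
    have hb : ∀ k, k < n + 1 → q k ≤ 3 := by
      intro k hk
      rw [hq k hk hk]
      have := (p ⟨k, hk⟩).2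
      omega
    have a0 := hc1 0 (by omega)
    have a1 := hc1 1 (by omega)
    have a2 := hc1 2 (by omega)
    have a3 := hc1 3 (by omega)
    have a4 := hc1 4 (by omega)
    have a5 := hc1 5 (by omega)
    have b0 := hc2 0 1 (by omega) (by omega) (by omega)
    have b1 := hc2 1 2 (by omega) (by omega) (by omega)
    have b2 := hc2 2 3 (by omega) (by omega) (by omega)
    have b3 := hc2 3 4 (by omega) (by omega) (by omega)
    have b4 := hc2 4 5 (by omega) (by omega) (by omega)
    have c6 := hb 6 (by omega)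
    simp only [Nat.zero_add, Nat.reduceAdd] at *
    omega
  rw [hd] at hdet
  rw [hdet]
  rfl

theorem std_zero' {n : ℕ} (hn : 6 ≤ n) (X : Fin n → Matrix (Fin 4) (Fin 4) R)
    (hX : ∀ i, InD (X i)) :
    ∑ σ : Equiv.Perm (Fin n), ((Equiv.Perm.sign σ : ℤ) : Matrix (Fin 4) (Fin 4) R) *
      (List.ofFn fun i => X (σ i)).prod = 0 := by
  rw [← std_zero hn X hX]
  refine Finset.sum_congr rfl fun σ _ => ?_
  rw [zsmul_eq_mul]

end std

end Pool.Agent.H234EP
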