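import Mathlib
import Pool.Agent.H109R3.CF.Src

set_option autoImplicit false

/-! A deterministic one-number residue machine with an undecidable halting problem. -/

namespace Pool.Agent.H234EP

open Pool.Agent.H502.PcSrc Pool.Agent.H109R3.CF

/-- The transitions of `T` are deterministic. -/
def Det (T : List Tr) : Prop :=
  ∀ p s s0 r r0 o s' s0' r' r0' o', (p, s, s0, r, r0, o) ∈ T → (p, s', s0', r', r0', o') ∈ T →
    s = s' ∧ s0 < s ∧ (s0 = s0' → r = r' ∧ r0 = r0' ∧ o = o')

theorem det_allT {P : Type} [Fintype P] (D : DM P (Bool × Bool)) (e : P → ℕ)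
    (he : Function.Injective e) : Det (allT D e) := by
  intro p s s0 r r0 o s' s0' r' r0' o' h1 h2
  obtain ⟨q1, h1⟩ := (mem_allT D e _).1 h1
  obtain ⟨q2, h2⟩ := (mem_allT D e _).1 h2
  have hp : ∀ j, 0 < pr j := fun j => (pr_prime j).pos
  unfold trs at h1 h2
  rw [List.mem_cons, List.mem_map] at h1 h2
  rcases h1 with h1 | ⟨i, hi, h1⟩ <;> rcases h2 with h2 | ⟨j, hj, h2⟩ <;>
    simp only [Prod.mk.injEq] at h1 h2
  · obtain ⟨a1, a2, a3, a4, a5, a6⟩ := h1
    obtain ⟨b1, b2, b3, b4, b5, b6⟩ := h2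
    have hq : q1 = q2 := he (by rw [← a1, ← b1])
    subst hq
    exact ⟨by rw [a2, b2], by rw [a2, a3]; exact hp _, fun _ => ⟨by rw [a4, b4], by rw [a5, b5],
      by rw [a6, b6]⟩⟩
  · obtain ⟨a1, a2, a3, a4, a5, a6⟩ := h1
    obtain ⟨b1, b2, b3, b4, b5, b6⟩ := h2
    have hq : q1 = q2 := he (by rw [← a1, ← b1])
    subst hq
    exact ⟨by rw [a2, b2], by rw [a2, a3]; exact hp _, fun h => by omega⟩
  · obtain ⟨a1, a2, a3, a4, a5, a6⟩ := h1
    obtain ⟨b1, b2, b3, b4, b5, b6⟩ := h2
    have hq : q1 = q2 := he (by rw [a1, ← b1])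
    subst hq
    rw [List.mem_range] at hi
    exact ⟨by rw [← a2, b2], by omega, fun h => by omega⟩
  · obtain ⟨a1, a2, a3, a4, a5, a6⟩ := h1
    obtain ⟨b1, b2, b3, b4, b5, b6⟩ := h2
    have hq : q1 = q2 := he (by rw [a1, ← b1])
    subst hq
    rw [List.mem_range] at hi
    refine ⟨by rw [← a2, b2], by omega, fun h => ?_⟩
    have hij : i = j := by omega
    subst hij
    exact ⟨by rw [← a4, b4], by rw [← a5, b5], by rw [← a6, b6]⟩

/-- A fixed finite deterministic one-number residue machine with an undecidable halting problem. -/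
theorem exists_det : ∃ (T : List Tr) (p0 : ℕ) (N : ℕ → ℕ), Det T ∧ Computable N ∧
    ¬ ComputablePred (fun n => HaltsT T (some p0) (N n)) := by
  obtain ⟨Q, hQ, M, q0, N, _, hN, h⟩ := exists_sys
  have hf : Finite (RS M) := inferInstance
  let _ : Fintype (RS M) := Fintype.ofFinite _
  let D : DM (RS M) (Bool × Bool) := dm M q0 0
  let e : RS M → ℕ := fun p => (Fintype.equivFin (RS M) p : ℕ)
  have he : Function.Injective e := by
    intro x y hxy
    exact (Fintype.equivFin (RS M)).injective (Fin.ext hxy)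
  refine ⟨allT D e, e (.d1 q0 (z0 M)), fun n => 2 ^ N n, det_allT D e he, ?_, ?_⟩
  · have h1 : Primrec (fun n : ℕ => 2 ^ n) := by
      have : Primrec₂ (fun _ n : ℕ => 2 ^ n) := by
        refine (Primrec.nat_rec (f := fun _ : ℕ => 1) (g := fun _ (p : ℕ × ℕ) => 2 * p.2)
          (Primrec.const 1) ?_).of_eq ?_
        · exact (Primrec.nat_mul.comp (Primrec.const 2) (Primrec.snd.comp Primrec.snd))
        · intro a n
          induction n with
          | zero => rfl
          | succ n ih =>
            simp only at ih ⊢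
            rw [ih, pow_succ]
            ring
      exact this.comp (Primrec.const 0) Primrec.id
    exact h1.to_comp.comp hN
  · intro hc
    apply h
    refine hc.of_eq ?_
    intro n
    have h1 := dm_halts_iff M q0 0 q0 (ini (N n))
    rw [← h1]
    have hcode : code (v4 (ini (N n) true) (ini (N n) false) 0 0) = 2 ^ N n := by
      unfold code
      rw [Fintype.prod_prod_type]
      simp [v4, ini, pr]
    have hnn : ∀ j, 0 ≤ v4 (ini (N n) true : ℤ) (ini (N n) false : ℤ) 0 0 j := by
      rintro ⟨a, b⟩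
      cases a <;> cases b <;> simp [v4]
    constructor
    · intro hh
      exact halts_of D e he _ _ hh (some (.d1 q0 (z0 M))) _ hnn rfl hcode.symm
    · rintro ⟨k, hk⟩
      have := of_halts D e k _ _ hnn hk
      rw [hcode] at this
      exact this

/-- The modulus used in the state `p`. -/
noncomputable def modulus (T : List Tr) (p : ℕ) : ℕ := by
  classical
  exact if h : ∃ s s0 r r0 o, (p, s, s0, r, r0, o) ∈ T then h.choose else 1

theorem modulus_eq {T : List Tr} (hT : Det T) {p s s0 r r0 : ℕ} {o : Option ℕ}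
    (h : (p, s, s0, r, r0, o) ∈ T) : modulus T p = s := by
  classical
  have hex : ∃ s s0 r r0 o, (p, s, s0, r, r0, o) ∈ T := ⟨s, s0, r, r0, o, h⟩
  unfold modulus
  rw [dif_pos hex]
  obtain ⟨s0', r', r0', o', h'⟩ := hex.choose_spec
  exact (hT _ _ _ _ _ _ _ _ _ _ _ h' h).1

theorem halts_step {T : List Tr} (hT : Det T) {p s s0 r r0 : ℕ} {o : Option ℕ}
    (h : (p, s, s0, r, r0, o) ∈ T) (t : ℕ) :
    HaltsT T (some p) (s * t + s0) ↔ HaltsT T o (r * t + r0) := by
  constructor
  · intro hh
    generalize ho : some p = o1 at hh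
    generalize hx : s * t + s0 = x at hh
    cases hh with
    | stop => simp at ho
    | step p' s' s0' r' r0' o' h' t' h2 =>
      obtain rfl : p = p' := by simpa using ho
      obtain ⟨e1, e2, e3⟩ := hT _ _ _ _ _ _ _ _ _ _ _ h h'
      obtain ⟨_, e5, _⟩ := hT _ _ _ _ _ _ _ _ _ _ _ h' h
      subst e1
      have hs : 0 < s := by omega
      have h3 : (s * t + s0) % s = s0 := by
        rw [Nat.mul_add_mod, Nat.mod_eq_of_lt e2]
      have h4 : (s * t' + s0') % s = s0' := by
        rw [Nat.mul_add_mod, Nat.mod_eq_of_lt e5]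
      have h5 : s0 = s0' := by rw [← h3, hx, h4]
      obtain ⟨f1, f2, f3⟩ := e3 h5
      subst h5 f1 f2 f3
      have h6 : t = t' := Nat.eq_of_mul_eq_mul_left hs (by omega)
      subst h6
      exact h2
  · intro hh
    exact HaltsT.step _ _ _ _ _ _ h t hh

end Pool.Agent.H234EP
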