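import Mathlib
import Pool.Agent.H234EP.Src
import Pool.Agent.H234EP.Defs

set_option autoImplicit false

/-! The relations simulating a residue machine, and the easy direction. -/

namespace Pool.Agent.H234EP

open Pool.Agent.H109R3.CF

universe u v w

/-- The letters. -/
inductive Lt : Type
  | L | R | a | b
  | P (p : ℕ)
  | Q (t : Tr)
  deriving DecidableEq

/-- The numbers of the letters. -/
def cd : Lt → ℕ
  | .L => 0
  | .R => 1
  | .a => 2
  | .b => 3
  | .P p => 4 + 2 * p
  | .Q t => 5 + 2 * Encodable.encode t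

theorem cd_inj : Function.Injective cd := by
  intro x y h
  cases x <;> cases y <;> simp only [cd] at h <;>
    first
      | rfl
      | omega
      | (have h' := Nat.eq_of_mul_eq_mul_left (by norm_num : 0 < 2) (Nat.add_left_cancel h)
         first
           | rw [h']
           | (have h'' := Encodable.encode_injective h'
              rw [h'']))

instance : Inhabited Lt := ⟨.L⟩

/-- The letter with a given number. -/
noncomputable def dc : ℕ → Lt := Function.invFun cd

theorem dc_cd (x : Lt) : dc (cd x) = x := Function.leftInverse_invFun cd_inj x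

/-- The term given by a word. -/
def mon (c : ℚ) (w : List Lt) : ℚ × ℕ × List ℕ :=
  match w with
  | [] => (0, 0, [])
  | x :: l => (c, cd x, l.map cd)

/-- The difference of two words. -/
def bin (x y : List Lt) : NCPoly ℚ := [mon 1 x, mon (-1) y]

/-- The relations of a transition. -/
def relOf : Tr → List (NCPoly ℚ)
  | (p, s, s0, r, r0, o) =>
    [bin (List.replicate s Lt.a ++ [Lt.P p]) [Lt.P p, Lt.b],
     bin (Lt.L :: (List.replicate s0 Lt.a ++ [Lt.P p])) [Lt.L, Lt.Q (p, s, s0, r, r0, o)],
     bin [Lt.Q (p, s, s0, r, r0, o), Lt.b]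
       (List.replicate r Lt.a ++ [Lt.Q (p, s, s0, r, r0, o)]),
     match o with
     | none => [mon 1 [Lt.Q (p, s, s0, r, r0, o), Lt.R]]
     | some q => bin [Lt.Q (p, s, s0, r, r0, o), Lt.R]
         (List.replicate r0 Lt.a ++ [Lt.P q, Lt.R])]

/-- All relations. -/
def rels (T : List Tr) : List (NCPoly ℚ) := T.flatMap relOf

/-- The word of the configuration with state `p` and number `x`. -/
def cfg (p x : ℕ) : List Lt := Lt.L :: (List.replicate x Lt.a ++ [Lt.P p, Lt.R])

/-- The conclusion. -/
def tgt (p x : ℕ) : NCPoly ℚ := [mon 1 (cfg p x)]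

section gen

variable (F : Type u) [Field F]

theorem hom_foldl {A : Type v} [NonUnitalRing A] {B : Type w} [Ring B] (g : A → B)
    (hm : ∀ x y, g (x * y) = g x * g y) (l : List A) : ∀ x : A,
    g (l.foldl (· * ·) x) = g x * (l.map g).prod := by
  induction l with
  | nil => intro x; simp
  | cons y l ih =>
    intro x
    rw [List.foldl_cons, ih, hm, List.map_cons, List.prod_cons, mul_assoc]

theorem hom_nprod {A : Type v} [NonUnitalRing A] {B : Type w} [Ring B] (g : A → B)
    (hm : ∀ x y, g (x * y) = g x * g y) (x : A) (l : List A) :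
    g (nprod (x :: l)) = ((x :: l).map g).prod := by
  rw [nprod, hom_foldl g hm, List.map_cons, List.prod_cons]

/-- the value of a term under a map preserving the operations -/
theorem hom_mon {A : Type v} [NonUnitalRing A] [Module F A] {B : Type w} [Ring B] [Algebra F B]
    (g : A →ₙₐ[F] B) (α : ℕ → A) (c : ℚ) (w : List Lt) (hw : w ≠ []) :
    g ((c : F) • nprod (α (mon c w).2.1 :: (mon c w).2.2.map α)) =
      (c : F) • (w.map fun x => g (α (cd x))).prod := by
  rcases w with _ | ⟨x, l⟩
  · exact absurd rfl hw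
  · rw [map_smul]
    congr 1
    rw [mon, hom_nprod g (map_mul g)]
    simp [List.map_cons, List.map_map, Function.comp_def]

theorem mon_fst (c : ℚ) (w : List Lt) (hw : w ≠ []) : (mon c w).1 = c := by
  rcases w with _ | ⟨x, l⟩
  · exact absurd rfl hw
  · rfl

theorem eval_bin {A : Type v} [NonUnitalRing A] [Module F A] {B : Type w} [Ring B] [Algebra F B]
    (g : A →ₙₐ[F] B) (α : ℕ → A) (x y : List Lt) (hx : x ≠ []) (hy : y ≠ []) :
    g (eval α (castPoly F (bin x y))) =
      (x.map fun t => g (α (cd t))).prod - (y.map fun t => g (α (cd t))).prod := by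
  unfold eval castPoly bin
  simp only [List.map_cons, List.map_nil, List.sum_cons, List.sum_nil, add_zero]
  rw [mon_fst _ _ hx, mon_fst _ _ hy, map_add, hom_mon F g α 1 x hx, hom_mon F g α (-1) y hy]
  simp only [Rat.cast_one, one_smul, Rat.cast_neg, neg_smul]
  rw [sub_eq_add_neg]

theorem eval_one {A : Type v} [NonUnitalRing A] [Module F A] {B : Type w} [Ring B] [Algebra F B]
    (g : A →ₙₐ[F] B) (α : ℕ → A) (x : List Lt) (hx : x ≠ []) :
    g (eval α (castPoly F [mon 1 x])) = (x.map fun t => g (α (cd t))).prod := by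
  unfold eval castPoly
  simp only [List.map_cons, List.map_nil, List.sum_cons, List.sum_nil, add_zero]
  rw [mon_fst _ _ hx, hom_mon F g α 1 x hx]
  simp only [Rat.cast_one, one_smul]

end gen

/-- The simulation in a ring. -/
theorem sim {B : Type v} [Ring B] (f : Lt → B) (T : List Tr)
    (h1 : ∀ p s s0 r r0 o, (p, s, s0, r, r0, o) ∈ T → f .a ^ s * f (.P p) = f (.P p) * f .b)
    (h2 : ∀ p s s0 r r0 o, (p, s, s0, r, r0, o) ∈ T →
      f .L * (f .a ^ s0 * f (.P p)) = f .L * f (.Q (p, s, s0, r, r0, o)))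
    (h3 : ∀ p s s0 r r0 o, (p, s, s0, r, r0, o) ∈ T →
      f (.Q (p, s, s0, r, r0, o)) * f .b = f .a ^ r * f (.Q (p, s, s0, r, r0, o)))
    (h4 : ∀ p s s0 r r0, (p, s, s0, r, r0, none) ∈ T → f (.Q (p, s, s0, r, r0, none)) * f .R = 0)
    (h5 : ∀ p s s0 r r0 q, (p, s, s0, r, r0, some q) ∈ T →
      f (.Q (p, s, s0, r, r0, some q)) * f .R = f .a ^ r0 * (f (.P q) * f .R))
    (o : Option ℕ) (x : ℕ) (h : HaltsT T o x) :
    ∀ p, o = some p → f .L * (f .a ^ x * (f (.P p) * f .R)) = 0 := by
  induction h with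
  | stop x => intro p hp; simp at hp
  | step p s s0 r r0 o hm t _ ih =>
    intro p' hp'
    obtain rfl : p = p' := by simpa using hp'
    have k1 : ∀ t : ℕ, f .a ^ (s * t) * f (.P p) = f (.P p) * f .b ^ t := by
      intro t
      induction t with
      | zero => simp
      | succ t iht =>
        rw [Nat.mul_succ, pow_add, mul_assoc, h1 _ _ _ _ _ _ hm, ← mul_assoc, iht, mul_assoc,
          ← pow_succ]
    have k3 : ∀ t : ℕ, f (.Q (p, s, s0, r, r0, o)) * f .b ^ t =
        f .a ^ (r * t) * f (.Q (p, s, s0, r, r0, o)) := by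
      intro t
      induction t with
      | zero => simp
      | succ t iht =>
        rw [pow_succ, ← mul_assoc, iht, mul_assoc, h3 _ _ _ _ _ _ hm, ← mul_assoc, ← pow_add,
          Nat.mul_succ]
    have k2 : f .L * (f .a ^ (s * t + s0) * (f (.P p) * f .R)) =
        f .L * (f .a ^ (r * t) * (f (.Q (p, s, s0, r, r0, o)) * f .R)) := by
      rw [add_comm, pow_add, mul_assoc, ← mul_assoc (f .a ^ (s * t)), k1 t]
      rw [← mul_assoc (f .a ^ (r * t)), ← k3 t]
      have e1 : f .L * (f .a ^ s0 * (f (.P p) * f .b ^ t * f .R)) =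
          f .L * (f .a ^ s0 * f (.P p)) * (f .b ^ t * f .R) := by simp only [mul_assoc]
      have e2 : f .L * (f (.Q (p, s, s0, r, r0, o)) * f .b ^ t * f .R) =
          f .L * f (.Q (p, s, s0, r, r0, o)) * (f .b ^ t * f .R) := by simp only [mul_assoc]
      rw [e1, e2, h2 _ _ _ _ _ _ hm]
    rw [k2]
    rcases o with _ | q
    · rw [h4 _ _ _ _ _ hm, mul_zero, mul_zero]
    · rw [h5 _ _ _ _ _ _ hm, ← mul_assoc (f .a ^ (r * t)), ← pow_add]
      exact ih q rfl

section fwd

variable (F : Type u) [Field F]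

/-- If the machine stops, the quasi-identity holds in every algebra. -/
theorem fwd (T : List Tr) (p x : ℕ) (h : HaltsT T (some p) x) (A : Type v) [NonUnitalRing A]
    [Module F A] [IsScalarTower F A A] [SMulCommClass F A A] :
    Holds F A (rels T, tgt p x) := by
  intro α hα
  simp only at hα ⊢
  let g : A →ₙₐ[F] Unitization F A := Unitization.inrNonUnitalAlgHom F A
  have ginj : ∀ z, g z = 0 → z = 0 := by
    intro z hz
    have : Unitization.inr (R := F) z = Unitization.inr (0 : A) := by
      rw [Unitization.inr_zero]; exact hz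
    exact Unitization.inr_injective this
  let f : Lt → Unitization F A := fun t => g (α (cd t))
  have rel0 : ∀ t ∈ T, ∀ e ∈ relOf t, g (eval α (castPoly F e)) = 0 := by
    intro t ht e he
    rw [hα e (List.mem_flatMap.2 ⟨t, ht, he⟩), map_zero]
  have h1 : ∀ p s s0 r r0 o, (p, s, s0, r, r0, o) ∈ T →
      f .a ^ s * f (.P p) = f (.P p) * f .b := by
    intro p s s0 r r0 o hm
    have := rel0 _ hm (bin (List.replicate s Lt.a ++ [Lt.P p]) [Lt.P p, Lt.b])
      (by simp [relOf])
    rw [eval_bin F g α _ _ (by simp) (by simp), sub_eq_zero] at this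
    simpa [f] using this
  have h2 : ∀ p s s0 r r0 o, (p, s, s0, r, r0, o) ∈ T →
      f .L * (f .a ^ s0 * f (.P p)) = f .L * f (.Q (p, s, s0, r, r0, o)) := by
    intro p s s0 r r0 o hm
    have := rel0 _ hm (bin (Lt.L :: (List.replicate s0 Lt.a ++ [Lt.P p]))
      [Lt.L, Lt.Q (p, s, s0, r, r0, o)]) (by simp [relOf])
    rw [eval_bin F g α _ _ (by simp) (by simp), sub_eq_zero] at this
    simpa [f] using this
  have h3 : ∀ p s s0 r r0 o, (p, s, s0, r, r0, o) ∈ T →
      f (.Q (p, s, s0, r, r0, o)) * f .b = f .a ^ r * f (.Q (p, s, s0, r, r0, o)) := by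
    intro p s s0 r r0 o hm
    have := rel0 _ hm (bin [Lt.Q (p, s, s0, r, r0, o), Lt.b]
      (List.replicate r Lt.a ++ [Lt.Q (p, s, s0, r, r0, o)])) (by simp [relOf])
    rw [eval_bin F g α _ _ (by simp) (by simp), sub_eq_zero] at this
    simpa [f] using this
  have h4 : ∀ p s s0 r r0, (p, s, s0, r, r0, none) ∈ T →
      f (.Q (p, s, s0, r, r0, none)) * f .R = 0 := by
    intro p s s0 r r0 hm
    have := rel0 _ hm ([mon 1 [Lt.Q (p, s, s0, r, r0, none), Lt.R]]) (by simp [relOf])
    rw [eval_one F g α _ (by simp)] at this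
    simpa [f] using this
  have h5 : ∀ p s s0 r r0 q, (p, s, s0, r, r0, some q) ∈ T →
      f (.Q (p, s, s0, r, r0, some q)) * f .R = f .a ^ r0 * (f (.P q) * f .R) := by
    intro p s s0 r r0 q hm
    have := rel0 _ hm (bin [Lt.Q (p, s, s0, r, r0, some q), Lt.R]
         (List.replicate r0 Lt.a ++ [Lt.P q, Lt.R])) (by simp [relOf])
    rw [eval_bin F g α _ _ (by simp) (by simp), sub_eq_zero] at this
    simpa [f] using this
  have key := sim f T h1 h2 h3 h4 h5 (some p) x h p rfl
  apply ginj
  rw [tgt, eval_one F g α _ (by simp [cfg])]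
  simpa [f, cfg] using key

end fwd

end Pool.Agent.H234EP
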