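import Mathlib
import Pool.Agent.H234EP.Fwd

set_option autoImplicit false

/-! Words, paths and the functional. -/

namespace Pool.Agent.H234EP

open Pool.Agent.H109R3.CF

universe u v w

/-- sources of the letters -/
def src : Lt → Fin 4
  | .L => 0 | .a => 1 | .P _ => 1 | .Q _ => 1 | .b => 2 | .R => 2

/-- targets of the letters -/
def tg : Lt → Fin 4
  | .L => 1 | .a => 1 | .P _ => 2 | .Q _ => 2 | .b => 2 | .R => 3

/-- state letters -/
def St (q : Lt) : Prop := src q = 1 ∧ tg q = 2

section pos

variable {V : Type} [DecidableEq V]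

/-- The end of the path with given start spelled by a word. -/
def pos (κ : Fin 4 → V) : V → List Lt → Option V
  | v, [] => some v
  | v, x :: w => if κ (src x) = v then pos κ (κ (tg x)) w else none

theorem pos_append (κ : Fin 4 → V) (x y : List Lt) : ∀ v, pos κ v (x ++ y) =
    (pos κ v x).bind fun t => pos κ t y := by
  induction x with
  | nil => intro v; rfl
  | cons c x ih =>
    intro v
    rw [List.cons_append, pos, pos]
    split_ifs
    · exact ih _
    · rfl

/-- The conditions on the vertex map. -/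
structure Adm (κ : Fin 4 → V) : Prop where
  h01 : κ 0 ≠ κ 1
  h02 : κ 0 ≠ κ 2
  h12 : κ 1 ≠ κ 2
  h31 : κ 3 ≠ κ 1
  h32 : κ 3 ≠ κ 2

/-- The good words. -/
def Good (w : List Lt) : Prop := ∃ m q n, St q ∧
  w = Lt.L :: (List.replicate m Lt.a ++ q :: (List.replicate n Lt.b ++ [Lt.R]))

theorem pos3 {κ : Fin 4 → V} (hκ : Adm κ) (w : List Lt) (h : pos κ (κ 3) w = some (κ 3))
    (hL : w.count Lt.L = 0) : w = [] := by
  rcases w with _ | ⟨x, w⟩
  · rfl
  · exfalso
    rw [pos] at h
    cases x <;> simp_all [src, tg, hκ.h31.symm, hκ.h32.symm]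

theorem pos2 {κ : Fin 4 → V} (hκ : Adm κ) (w : List Lt) : pos κ (κ 2) w = some (κ 3) →
    w.count Lt.L = 0 → ∃ n, w = List.replicate n Lt.b ++ [Lt.R] := by
  induction w with
  | nil => intro h; simp [pos, hκ.h32.symm] at h
  | cons x w ih =>
    intro h hL
    rw [pos] at h
    cases x with
    | L => simp [src, hκ.h02] at h
    | a => simp [src, hκ.h12] at h
    | P p => simp [src, hκ.h12] at h
    | Q p => simp [src, hκ.h12] at h
    | b =>
      simp only [src, tg, if_true] at h
      obtain ⟨n, rfl⟩ := ih h (by simpa [List.count_cons] using hL)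
      exact ⟨n + 1, rfl⟩
    | R =>
      simp only [src, tg, if_true] at h
      have := pos3 hκ w h (by simpa [List.count_cons] using hL)
      subst this
      exact ⟨0, rfl⟩

theorem pos1 {κ : Fin 4 → V} (hκ : Adm κ) (w : List Lt) : pos κ (κ 1) w = some (κ 3) →
    w.count Lt.L = 0 → ∃ m q n, St q ∧
      w = List.replicate m Lt.a ++ q :: (List.replicate n Lt.b ++ [Lt.R]) := by
  induction w with
  | nil => intro h; simp [pos, hκ.h31.symm] at h
  | cons x w ih =>
    intro h hL
    rw [pos] at h
    cases x with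
    | L => simp [src, hκ.h01] at h
    | a =>
      simp only [src, tg, if_true] at h
      obtain ⟨m, q, n, hq, rfl⟩ := ih h (by simpa [List.count_cons] using hL)
      exact ⟨m + 1, q, n, hq, rfl⟩
    | P p =>
      simp only [src, tg, if_true] at h
      obtain ⟨n, rfl⟩ := pos2 hκ w h (by simpa [List.count_cons] using hL)
      exact ⟨0, _, n, ⟨rfl, rfl⟩, rfl⟩
    | Q p =>
      simp only [src, tg, if_true] at h
      obtain ⟨n, rfl⟩ := pos2 hκ w h (by simpa [List.count_cons] using hL)
      exact ⟨0, _, n, ⟨rfl, rfl⟩, rfl⟩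
    | b => simp [src, hκ.h12.symm] at h
    | R => simp [src, hκ.h12.symm] at h

theorem pos0 {κ : Fin 4 → V} (hκ : Adm κ) (w : List Lt) (h : pos κ (κ 0) w = some (κ 3))
    (hL : w.count Lt.L = 1) : Good w := by
  rcases w with _ | ⟨x, w⟩
  · simp at hL
  · rw [pos] at h
    cases x with
    | L =>
      simp only [src, tg, if_true] at h
      obtain ⟨m, q, n, hq, rfl⟩ := pos1 hκ w h (by simpa [List.count_cons] using hL)
      exact ⟨m, q, n, hq, rfl⟩
    | a => simp [src, hκ.h01.symm] at h
    | P p => simp [src, hκ.h01.symm] at h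
    | Q p => simp [src, hκ.h01.symm] at h
    | b => simp [src, hκ.h02.symm] at h
    | R => simp [src, hκ.h02.symm] at h

theorem pos_b (κ : Fin 4 → V) (n : ℕ) : pos κ (κ 2) (List.replicate n Lt.b ++ [Lt.R]) =
    some (κ 3) := by
  induction n with
  | zero => simp [pos, src, tg]
  | succ n ih => simpa [List.replicate_succ, pos, src, tg] using ih

theorem pos_a (κ : Fin 4 → V) (m : ℕ) (w : List Lt) :
    pos κ (κ 1) (List.replicate m Lt.a ++ w) = pos κ (κ 1) w := by
  induction m with
  | zero => simp
  | succ n ih => simpa [List.replicate_succ, pos, src, tg] using ih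

theorem pos_good (κ : Fin 4 → V) {w : List Lt} (h : Good w) :
    pos κ (κ 0) w = some (κ 3) ∧ w.count Lt.L = 1 := by
  obtain ⟨m, q, n, ⟨hq1, hq2⟩, rfl⟩ := h
  constructor
  · rw [pos]
    simp only [src, tg, if_true]
    rw [pos_a, pos, hq1, hq2, if_pos rfl, pos_b]
  · have : q ≠ Lt.L := by rintro rfl; simp [src] at hq1
    simp [List.count_cons, List.count_append, List.count_replicate, this]

end pos

/-- the count of the letters of a word -/
noncomputable def cnt : List Lt → (Lt →₀ ℕ)
  | [] => 0
  | x :: w => Finsupp.single x 1 + cnt w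

theorem cnt_apply (w : List Lt) (x : Lt) : cnt w x = w.count x := by
  induction w with
  | nil => simp [cnt]
  | cons y w ih =>
    rw [cnt, Finsupp.add_apply, ih, List.count_cons, Finsupp.single_apply, add_comm]
    simp

/-- The configuration `L a^m q b^n R` leads to a stop. -/
def H (T : List Tr) : Lt → ℕ → ℕ → Prop
  | .P p, m, n => HaltsT T (some p) (m + modulus T p * n)
  | .Q (_, _, _, r, r0, o), m, n => HaltsT T o (m + r * n + r0)
  | _, _, _ => True

section G

variable (F : Type u) [Field F] (T : List Tr)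

open Classical in
/-- the functional on monomials -/
noncomputable def G (c : Lt →₀ ℕ) : F :=
  if c .L = 1 ∧ ∃ q, c q ≠ 0 ∧ ¬ H T q (c .a) (c .b) then 1 else 0

open Classical in
theorem G_val (w : List Lt) (q : Lt) (m n : ℕ) (hL : w.count .L = 1) (ha : w.count .a = m)
    (hb : w.count .b = n) (hq : q ∈ w)
    (hall : ∀ x ∈ w, x = q ∨ x = .L ∨ x = .R ∨ x = .a ∨ x = .b) :
    G F T (cnt w) = if H T q m n then 0 else 1 := by
  unfold G
  simp only [cnt_apply]
  rw [hL, ha, hb]
  by_cases hH : H T q m n
  · rw [if_pos hH, if_neg]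
    rintro ⟨-, q', h1, h2⟩
    have hm : q' ∈ w := List.count_pos_iff.1 (Nat.pos_of_ne_zero h1)
    rcases hall q' hm with rfl | rfl | rfl | rfl | rfl
    · exact h2 hH
    all_goals exact h2 trivial
  · rw [if_neg hH, if_pos]
    exact ⟨rfl, q, (List.count_pos_iff.2 hq).ne', hH⟩

end G

end Pool.Agent.H234EP
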