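import Mathlib
import Pool.Agent.H234EP.Words
import Pool.Agent.H234EP.Ident

set_option autoImplicit false

/-! The representations and the functional on the free algebra. -/

namespace Pool.Agent.H234EP

open Pool.Agent.H109R3.CF

universe u v w

section

variable (F : Type u) [Field F] {V : Type} [DecidableEq V] [Fintype V]

/-- the representation by matrices over the polynomial ring -/
noncomputable def rho (κ : Fin 4 → V) : FreeAlgebra F Lt →ₐ[F] Matrix V V (MvPolynomial Lt F) :=
  FreeAlgebra.lift F fun x => Matrix.single (κ (src x)) (κ (tg x)) (MvPolynomial.X x)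

/-- words in the free algebra -/
noncomputable def W (w : List Lt) : FreeAlgebra F Lt := (w.map (FreeAlgebra.ι F)).prod

theorem W_nil : W F [] = 1 := rfl

theorem W_cons (x : Lt) (w : List Lt) : W F (x :: w) = FreeAlgebra.ι F x * W F w := by
  simp [W]

theorem W_append (x y : List Lt) : W F (x ++ y) = W F x * W F y := by
  simp [W]

theorem rho_word (κ : Fin 4 → V) (w : List Lt) : ∀ v t : V, rho F κ (W F w) v t =
    if pos κ v w = some t then MvPolynomial.monomial (cnt w) (1 : F) else 0 := by
  induction w with
  | nil =>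
    intro v t
    rw [W_nil, map_one, Matrix.one_apply, pos]
    simp [cnt]
  | cons x w ih =>
    intro v t
    rw [W_cons, map_mul, pos]
    have e : rho F κ (FreeAlgebra.ι F x) =
        Matrix.single (κ (src x)) (κ (tg x)) (MvPolynomial.X x) := by
      simp [rho]
    rw [e]
    by_cases h : κ (src x) = v
    · rw [if_pos h, ← h, Matrix.single_mul_apply_same, ih]
      split_ifs
      · rw [cnt, MvPolynomial.X, MvPolynomial.monomial_mul, one_mul]
      · rw [mul_zero]
    · rw [if_neg h, Matrix.single_mul_apply_of_ne _ _ _ _ _ (Ne.symm h)]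
      simp

variable (T : List Tr)

/-- the functional on polynomials -/
noncomputable def psi : MvPolynomial Lt F →ₗ[F] F :=
  (MvPolynomial.basisMonomials Lt F).constr F (G F T)

theorem psi_monomial (c : Lt →₀ ℕ) : psi F T (MvPolynomial.monomial c 1) = G F T c := by
  have := (MvPolynomial.basisMonomials Lt F).constr_basis F (G F T) c
  rwa [MvPolynomial.coe_basisMonomials] at this

/-- the functional on the free algebra -/
noncomputable def Phi (κ : Fin 4 → V) : FreeAlgebra F Lt →ₗ[F] F where
  toFun x := psi F T (rho F κ x (κ 0) (κ 3))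
  map_add' x y := by rw [map_add, Matrix.add_apply, map_add]
  map_smul' c x := by rw [map_smul, Matrix.smul_apply, map_smul]; rfl

theorem Phi_apply (κ : Fin 4 → V) (x : FreeAlgebra F Lt) :
    Phi F T κ x = psi F T (rho F κ x (κ 0) (κ 3)) := rfl

open Classical in
theorem Phi_word {κ : Fin 4 → V} (hκ : Adm κ) (w : List Lt) :
    Phi F T κ (W F w) = if Good w then G F T (cnt w) else 0 := by
  rw [Phi_apply, rho_word]
  by_cases h : Good w
  · rw [if_pos h, if_pos (pos_good κ h).1, psi_monomial]
  · rw [if_neg h]
    split_ifs with h1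
    · rw [psi_monomial, G, if_neg]
      rintro ⟨h2, -⟩
      rw [cnt_apply] at h2
      exact h (pos0 hκ w h1 h2)
    · rw [map_zero]

theorem word_span (x : FreeAlgebra F Lt) : x ∈ Submodule.span F (Set.range (W F)) := by
  induction x using FreeAlgebra.induction with
  | grade0 r =>
    rw [Algebra.algebraMap_eq_smul_one]
    exact Submodule.smul_mem _ _ (Submodule.subset_span ⟨[], rfl⟩)
  | grade1 x =>
    exact Submodule.subset_span ⟨[x], by simp [W]⟩
  | mul a b ha hb =>
    have h := Submodule.mul_mem_mul ha hb
    rw [Submodule.span_mul_span] at h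
    refine Submodule.span_mono ?_ h
    rintro _ ⟨_, ⟨x, rfl⟩, _, ⟨y, rfl⟩, rfl⟩
    exact ⟨x ++ y, W_append F x y⟩
  | add a b ha hb => exact Submodule.add_mem _ ha hb

theorem lin_ext {M : Type v} [AddCommGroup M] [Module F M] {f g : FreeAlgebra F Lt →ₗ[F] M}
    (h : ∀ w, f (W F w) = g (W F w)) : f = g := by
  have : Submodule.span F (Set.range (W F)) = ⊤ := by
    rw [eq_top_iff]
    exact fun x _ => word_span F x
  apply LinearMap.ext_on this
  rintro _ ⟨w, rfl⟩
  exact h w

/-- the functional does not depend on the vertex map -/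
theorem Phi_eq {V' : Type} [DecidableEq V'] [Fintype V'] {κ : Fin 4 → V} {κ' : Fin 4 → V'}
    (hκ : Adm κ) (hκ' : Adm κ') : Phi F T κ = Phi F T κ' := by
  classical
  apply lin_ext
  intro w
  rw [Phi_word F T hκ, Phi_word F T hκ']

theorem adm_id : Adm (id : Fin 4 → Fin 4) := by
  constructor <;> decide

/-- the functional -/
noncomputable abbrev Ph : FreeAlgebra F Lt →ₗ[F] F := Phi F T (id : Fin 4 → Fin 4)

/-- The syntactic congruence. -/
def Rel (x y : FreeAlgebra F Lt) : Prop := ∀ u v, Ph F T (u * x * v) = Ph F T (u * y * v)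

theorem rel_of_words {x y : FreeAlgebra F Lt}
    (h : ∀ u v : List Lt, Ph F T (W F u * x * W F v) = Ph F T (W F u * y * W F v)) :
    Rel F T x y := by
  have h1 : ∀ (v : List Lt) (u : FreeAlgebra F Lt),
      Ph F T (u * x * W F v) = Ph F T (u * y * W F v) := by
    intro v u
    have e : (Ph F T) ∘ₗ (LinearMap.mulRight F (x * W F v)) =
        (Ph F T) ∘ₗ (LinearMap.mulRight F (y * W F v)) := by
      apply lin_ext
      intro w
      simpa [mul_assoc] using h w v
    simpa [mul_assoc] using LinearMap.congr_fun e u
  intro u v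
  have e : (Ph F T) ∘ₗ (LinearMap.mulLeft F (u * x)) =
      (Ph F T) ∘ₗ (LinearMap.mulLeft F (u * y)) := by
    apply lin_ext
    intro w
    simpa [mul_assoc] using h1 w u
  simpa [mul_assoc] using LinearMap.congr_fun e v

/-- The syntactic congruence as a ring congruence. -/
def con : RingCon (FreeAlgebra F Lt) where
  r := Rel F T
  iseqv := ⟨fun _ _ _ => rfl, fun h u v => (h u v).symm, fun h h' u v => (h u v).trans (h' u v)⟩
  add' := by
    intro a b c d h h' u v
    rw [mul_add, add_mul, map_add, h u v, h' u v, mul_add, add_mul, map_add]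
  mul' := by
    intro a b c d h h' u v
    have e1 : u * (a * c) * v = u * a * (c * v) := by simp only [mul_assoc]
    have e2 : u * b * (c * v) = (u * b) * c * v := by simp only [mul_assoc]
    have e3 : u * (b * d) * v = (u * b) * d * v := by simp only [mul_assoc]
    rw [e1, h u (c * v), e2, h' (u * b) v, e3]

theorem con_iff (x y : FreeAlgebra F Lt) : con F T x y ↔ Rel F T x y := Iff.rfl

end

end Pool.Agent.H234EP
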