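import Mathlib
import Pool.Agent.H234EP.Rep

set_option autoImplicit false

/-! The syntactic algebra. -/

namespace Pool.Agent.H234EP

open Pool.Agent.H109R3.CF

universe u v w

set_option maxHeartbeats 1000000

section

variable (F : Type u) [Field F] (T : List Tr)

/-- the syntactic algebra (with unit) -/
def B : Type u := (con F T).Quotient

noncomputable instance : Ring (B F T) := inferInstanceAs (Ring (con F T).Quotient)

noncomputable instance : Algebra F (B F T) := inferInstanceAs (Algebra F (con F T).Quotient)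

/-- the projection -/
def mk : FreeAlgebra F Lt →ₐ[F] B F T := RingCon.mkₐ F (con F T)

theorem mk_surj : Function.Surjective (mk F T) := by
  intro x
  obtain ⟨y, rfl⟩ := Quotient.exists_rep x
  exact ⟨y, rfl⟩

theorem mk_eq (x y : FreeAlgebra F Lt) : mk F T x = mk F T y ↔ Rel F T x y :=
  RingCon.eq (con F T)

/-- the augmentation -/
noncomputable def aug : FreeAlgebra F Lt →ₐ[F] F := FreeAlgebra.lift F fun _ => 0

/-- the syntactic algebra -/
noncomputable def Bp : NonUnitalSubalgebra F (B F T) where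
  carrier := {y | ∃ x, aug F x = 0 ∧ mk F T x = y}
  add_mem' := by
    rintro _ _ ⟨x, hx, rfl⟩ ⟨y, hy, rfl⟩
    exact ⟨x + y, by rw [map_add, hx, hy, add_zero], map_add _ _ _⟩
  zero_mem' := ⟨0, map_zero _, map_zero _⟩
  mul_mem' := by
    rintro _ _ ⟨x, hx, rfl⟩ ⟨y, hy, rfl⟩
    exact ⟨x * y, by rw [map_mul, hx, zero_mul], map_mul _ _ _⟩
  smul_mem' := by
    rintro c _ ⟨x, hx, rfl⟩
    exact ⟨c • x, by rw [map_smul, hx, smul_zero], map_smul _ _ _⟩

theorem Bp_lift (y : Bp F T) : ∃ x, aug F x = 0 ∧ mk F T x = (y : B F T) := y.2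

/-- the inclusion -/
noncomputable def inc : Bp F T →ₙₐ[F] B F T := NonUnitalSubalgebraClass.subtype (Bp F T)

theorem inc_inj : Function.Injective (inc F T) := Subtype.val_injective

/-! ### The algebra is in `M(n)`. -/

/-- The vertex map. -/
def kap (n : ℕ) (hn : 3 ≤ n) : Fin 4 → Fin n :=
  ![⟨0, by omega⟩, ⟨1, by omega⟩, ⟨2, by omega⟩, ⟨0, by omega⟩]

theorem adm_kap (n : ℕ) (hn : 3 ≤ n) : Adm (kap n hn) := by
  constructor <;> simp [kap]

theorem B_inM [CharZero F] (n : ℕ) (hn : 3 ≤ n) : InM F n (B F T) := by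
  intro f hf a
  choose x hx using fun i => mk_surj F T (a i)
  have ha : a = fun i => (mk F T : FreeAlgebra F Lt →ₙₐ[F] B F T) (x i) := by
    funext i
    exact (hx i).symm
  rw [ha, ← map_eval]
  have : (mk F T) (eval x f) = mk F T 0 := by
    rw [mk_eq]
    intro u v
    rw [Ph, Phi_eq F T (adm_id) (adm_kap n hn), Phi_apply, Phi_apply, map_mul, map_mul,
      map_mul, map_mul, map_zero]
    have h0 : rho F (kap n hn) (eval x f) = 0 := by
      have h1 := map_eval (F := F)
        (rho F (kap n hn) : FreeAlgebra F Lt →ₙₐ[F] Matrix (Fin n) (Fin n) (MvPolynomial Lt F)) x f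
      rw [ident_transfer f hf] at h1
      exact h1
    rw [h0]
  rw [map_zero] at this
  exact this

theorem Bp_inM [CharZero F] (n : ℕ) (hn : 3 ≤ n) : InM F n (Bp F T) := by
  intro f hf a
  apply inc_inj
  rw [map_eval, B_inM F T n hn f hf, map_zero]

/-! ### The algebra is in `S(n)`. -/

theorem rho_D (x : FreeAlgebra F Lt) : (∀ i j : Fin 4, j < i → rho F (id : Fin 4 → Fin 4) x i j = 0) ∧
    rho F (id : Fin 4 → Fin 4) x 0 0 = algebraMap F _ (aug F x) ∧
    rho F (id : Fin 4 → Fin 4) x 3 3 = algebraMap F _ (aug F x) := by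
  induction x using FreeAlgebra.induction with
  | grade0 r =>
    have e : rho F (id : Fin 4 → Fin 4) (algebraMap F _ r) =
        algebraMap F (Matrix (Fin 4) (Fin 4) (MvPolynomial Lt F)) r := by
      rw [AlgHom.commutes]
    have e2 : aug F (algebraMap F _ r) = r := by
      rw [AlgHom.commutes]; rfl
    rw [e, e2, Matrix.algebraMap_eq_diagonal]
    refine ⟨?_, ?_, ?_⟩
    · intro i j h
      rw [Matrix.diagonal_apply_ne _ h.ne']
    · rw [Matrix.diagonal_apply_eq]; rfl
    · rw [Matrix.diagonal_apply_eq]; rfl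
  | grade1 x =>
    have e : rho F (id : Fin 4 → Fin 4) (FreeAlgebra.ι F x) =
        Matrix.single (src x) (tg x) (MvPolynomial.X x) := by
      simp [rho]
    have e2 : aug F (FreeAlgebra.ι F x) = 0 := by simp [aug]
    rw [e, e2, map_zero]
    have hle : src x ≤ tg x := by cases x <;> simp [src, tg]
    have h00 : ¬ (src x = 0 ∧ tg x = 0) := by cases x <;> simp [src, tg]
    have h33 : ¬ (src x = 3 ∧ tg x = 3) := by cases x <;> simp [src, tg]
    refine ⟨?_, ?_, ?_⟩
    · intro i j h
      apply Matrix.single_apply_of_ne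
      rintro ⟨rfl, rfl⟩
      exact absurd h (not_lt.2 hle)
    · exact Matrix.single_apply_of_ne _ _ _ _ _ h00
    · exact Matrix.single_apply_of_ne _ _ _ _ _ h33
  | mul a b ha hb =>
    obtain ⟨a1, a2, a3⟩ := ha
    obtain ⟨b1, b2, b3⟩ := hb
    rw [map_mul, map_mul, map_mul]
    refine ⟨?_, ?_, ?_⟩
    · intro i j h
      rw [Matrix.mul_apply]
      refine Finset.sum_eq_zero fun k _ => ?_
      rcases lt_or_ge k i with h1 | h1
      · rw [a1 i k h1, zero_mul]
      · rw [b1 k j (lt_of_lt_of_le h h1), mul_zero]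
    · rw [Matrix.mul_apply, Finset.sum_eq_single 0]
      · rw [a2, b2]
      · intro k _ hk
        rw [b1 k 0 (Fin.pos_of_ne_zero hk), mul_zero]
      · simp
    · rw [Matrix.mul_apply, Finset.sum_eq_single 3]
      · rw [a3, b3]
      · intro k _ hk
        rw [a1 3 k (by omega), zero_mul]
      · simp
  | add a b ha hb =>
    obtain ⟨a1, a2, a3⟩ := ha
    obtain ⟨b1, b2, b3⟩ := hb
    rw [map_add, map_add, map_add]
    refine ⟨?_, ?_, ?_⟩
    · intro i j h
      rw [Matrix.add_apply, a1 i j h, b1 i j h, add_zero]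
    · rw [Matrix.add_apply, a2, b2]
    · rw [Matrix.add_apply, a3, b3]

theorem rho_std (n : ℕ) (hn : 6 ≤ n) (x : Fin n → FreeAlgebra F Lt)
    (hx0 : ∀ i, aug F (x i) = 0) : rho F (id : Fin 4 → Fin 4) (∑ σ : Equiv.Perm (Fin n),
      ((Equiv.Perm.sign σ : ℤ) : FreeAlgebra F Lt) * (List.ofFn fun i => x (σ i)).prod) = 0 := by
  rw [map_sum]
  have e2 : ∀ σ : Equiv.Perm (Fin n), rho F (id : Fin 4 → Fin 4)
      (((Equiv.Perm.sign σ : ℤ) : FreeAlgebra F Lt) * (List.ofFn fun i => x (σ i)).prod) =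
      ((Equiv.Perm.sign σ : ℤ) : Matrix (Fin 4) (Fin 4) (MvPolynomial Lt F)) *
        (List.ofFn fun i => rho F (id : Fin 4 → Fin 4) (x (σ i))).prod := by
    intro σ
    rw [map_mul, map_intCast, map_list_prod, List.map_ofFn]
    rfl
  simp only [e2]
  refine std_zero' hn (fun i => rho F (id : Fin 4 → Fin 4) (x i)) ?_
  intro i
  obtain ⟨h1, h2, h3⟩ := rho_D F (x i)
  rw [hx0, map_zero] at h2 h3
  exact ⟨h1, h2, h3⟩

theorem Bp_inS (n : ℕ) (hn : 6 ≤ n) : InS n (Bp F T) := by
  intro y
  choose x hx0 hx using fun i => Bp_lift F T (y i)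
  apply inc_inj
  rw [map_zero, map_sum]
  have e : ∀ σ : Equiv.Perm (Fin n), inc F T ((Equiv.Perm.sign σ : ℤ) •
      nprod (List.ofFn fun i => y (σ i))) =
      mk F T (((Equiv.Perm.sign σ : ℤ) : FreeAlgebra F Lt) *
        (List.ofFn fun i => x (σ i)).prod) := by
    intro σ
    rw [map_zsmul, map_mul, map_intCast, zsmul_eq_mul]
    congr 1
    obtain ⟨m, rfl⟩ : ∃ m, n = m + 1 := ⟨n - 1, by omega⟩
    rw [List.ofFn_succ, hom_nprod (inc F T) (map_mul _), List.ofFn_succ, map_list_prod,
      List.map_cons, List.map_cons, List.map_ofFn, List.map_ofFn]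
    have e1 : ∀ i, inc F T (y i) = mk F T (x i) := fun i => (hx i).symm
    congr 2
    · exact e1 _
    · congr 1
      funext i
      exact e1 _
  simp only [e]
  rw [← map_sum, ← map_zero (mk F T), mk_eq]
  intro u v
  rw [Ph, Phi_apply, Phi_apply, map_mul, map_mul, map_mul, map_mul, map_zero,
    rho_std F n hn x hx0]

end

end Pool.Agent.H234EP
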