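import Mathlib
import Pool.Agent.H234EP.Model

set_option autoImplicit false

/-! If the machine does not stop, the quasi-identity fails in the syntactic algebra. -/

namespace Pool.Agent.H234EP

open Pool.Agent.H109R3.CF

universe u v w

set_option linter.unusedSimpArgs false
set_option linter.unusedTactic false

theorem pos_mono (w : List Lt) : ∀ v t : Fin 4, pos (id : Fin 4 → Fin 4) v w = some t → v ≤ t := by
  induction w with
  | nil => intro v t h; simp [pos] at h; exact h.le
  | cons x w ih =>
    intro v t h
    rw [pos] at h
    split_ifs at h with h1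
    refine le_trans ?_ (ih _ _ h)
    rw [← h1]
    cases x <;> simp [src, tg]

theorem shape3 (w : List Lt) (h : pos (id : Fin 4 → Fin 4) 3 w = some 3) : w = [] := by
  rcases w with _ | ⟨x, w⟩
  · rfl
  · exfalso
    rw [pos] at h
    cases x <;> simp [src] at h

theorem shape2 (w : List Lt) : pos (id : Fin 4 → Fin 4) 2 w = some 3 →
    ∃ n, w = List.replicate n Lt.b ++ [Lt.R] := by
  induction w with
  | nil => intro h; simp [pos] at h
  | cons x w ih =>
    intro h
    rw [pos] at h
    cases x with
    | L => simp [src] at h
    | a => simp [src] at h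
    | P p => simp [src] at h
    | Q p => simp [src] at h
    | b =>
      simp only [src, tg, id, if_true] at h
      obtain ⟨n, rfl⟩ := ih h
      exact ⟨n + 1, rfl⟩
    | R =>
      simp only [src, tg, id, if_true] at h
      have := shape3 w h
      subst this
      exact ⟨0, rfl⟩

theorem shape1 (w : List Lt) : pos (id : Fin 4 → Fin 4) 1 w = some 1 →
    ∃ n, w = List.replicate n Lt.a := by
  induction w with
  | nil => intro _; exact ⟨0, rfl⟩
  | cons x w ih =>
    intro h
    rw [pos] at h
    cases x with
    | L => simp [src] at h
    | a =>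
      simp only [src, tg, id, if_true] at h
      obtain ⟨n, rfl⟩ := ih h
      exact ⟨n + 1, rfl⟩
    | P p =>
      simp only [src, tg, id, if_true] at h
      exact absurd (pos_mono _ _ _ h) (by decide)
    | Q p =>
      simp only [src, tg, id, if_true] at h
      exact absurd (pos_mono _ _ _ h) (by decide)
    | b => simp [src] at h
    | R => simp [src] at h

theorem shape01 (w : List Lt) (h : pos (id : Fin 4 → Fin 4) 0 w = some 1) :
    ∃ n, w = Lt.L :: List.replicate n Lt.a := by
  rcases w with _ | ⟨x, w⟩
  · simp [pos] at h
  · rw [pos] at h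
    cases x with
    | L =>
      simp only [src, tg, id, if_true] at h
      obtain ⟨n, rfl⟩ := shape1 w h
      exact ⟨n, rfl⟩
    | a => simp [src] at h
    | P p => simp [src] at h
    | Q p => simp [src] at h
    | b => simp [src] at h
    | R => simp [src] at h

theorem shape00 (w : List Lt) (h : pos (id : Fin 4 → Fin 4) 0 w = some 0) : w = [] := by
  rcases w with _ | ⟨x, w⟩
  · rfl
  · exfalso
    rw [pos] at h
    split_ifs at h with h1
    have h2 := pos_mono _ _ _ h
    cases x <;> simp [src, tg] at h1 h2

section

variable (F : Type u) [Field F] (T : List Tr)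

theorem Ph_word (w : List Lt) : Ph F T (W F w) =
    if pos (id : Fin 4 → Fin 4) 0 w = some 3 then G F T (cnt w) else 0 := by
  rw [Ph, Phi_apply, rho_word]
  simp only [id]
  split_ifs
  · rw [psi_monomial]
  · rw [map_zero]

theorem ite_iff {P Q : Prop} [Decidable P] [Decidable Q] (h : P ↔ Q) :
    (if P then (0 : F) else 1) = if Q then 0 else 1 := by
  by_cases hp : P
  · rw [if_pos hp, if_pos (h.1 hp)]
  · rw [if_neg hp, if_neg fun hq => hp (h.2 hq)]

theorem rel_bin {X Y : List Lt} {i j : Fin 4}
    (hX : ∀ v, pos (id : Fin 4 → Fin 4) v X = if v = i then some j else none)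
    (hY : ∀ v, pos (id : Fin 4 → Fin 4) v Y = if v = i then some j else none)
    (hG : ∀ u v, pos (id : Fin 4 → Fin 4) 0 u = some i → pos (id : Fin 4 → Fin 4) j v = some 3 →
      G F T (cnt (u ++ X ++ v)) = G F T (cnt (u ++ Y ++ v))) :
    Rel F T (W F X) (W F Y) := by
  apply rel_of_words
  intro u v
  rw [← W_append, ← W_append, ← W_append, ← W_append, Ph_word, Ph_word]
  simp only [pos_append]
  rcases hu : pos (id : Fin 4 → Fin 4) 0 u with _ | t
  · simp
  · simp only [Option.bind_some, hX, hY]
    by_cases ht : t = i
    · subst ht
      simp only [if_true, Option.bind_some]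
      by_cases hv : pos (id : Fin 4 → Fin 4) j v = some 3
      · rw [if_pos hv, if_pos hv, hG u v hu hv]
      · rw [if_neg hv, if_neg hv]
    · simp [ht]

theorem rel_zero {X : List Lt} {i j : Fin 4}
    (hX : ∀ v, pos (id : Fin 4 → Fin 4) v X = if v = i then some j else none)
    (hG : ∀ u v, pos (id : Fin 4 → Fin 4) 0 u = some i → pos (id : Fin 4 → Fin 4) j v = some 3 →
      G F T (cnt (u ++ X ++ v)) = 0) :
    Rel F T (W F X) 0 := by
  apply rel_of_words
  intro u v
  rw [← W_append, ← W_append, Ph_word]
  simp only [pos_append, mul_zero, zero_mul, map_zero]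
  rcases hu : pos (id : Fin 4 → Fin 4) 0 u with _ | t
  · simp
  · simp only [Option.bind_some, hX]
    by_cases ht : t = i
    · subst ht
      simp only [if_true, Option.bind_some]
      by_cases hv : pos (id : Fin 4 → Fin 4) j v = some 3
      · rw [if_pos hv, hG u v hu hv]
      · rw [if_neg hv]
    · simp [ht]

theorem pos_aq (q : Lt) (hq : St q) (m : ℕ) (w : List Lt) (v : Fin 4) :
    pos (id : Fin 4 → Fin 4) v (List.replicate m Lt.a ++ q :: w) =
      if v = 1 then pos (id : Fin 4 → Fin 4) 2 w else none := by
  obtain ⟨h1, h2⟩ := hq
  by_cases hv : v = 1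
  · subst hv
    have := pos_a (id : Fin 4 → Fin 4) m (q :: w)
    simp only [id] at this
    rw [this, pos, if_pos rfl]
    simp [h1, h2]
  · rw [if_neg hv]
    rcases m with _ | m
    · simp only [List.replicate_zero, List.nil_append]
      rw [pos, h1, if_neg (by simpa using fun h => hv h.symm)]
    · rw [List.replicate_succ, List.cons_append, pos, if_neg]
      simpa [src] using fun h => hv h.symm

variable {T}

theorem rel1 (hT : Det T) {p s s0 r r0 : ℕ} {o : Option ℕ} (h : (p, s, s0, r, r0, o) ∈ T) :
    Rel F T (W F (List.replicate s Lt.a ++ [Lt.P p])) (W F [Lt.P p, Lt.b]) := by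
  classical
  refine rel_bin F T (i := 1) (j := 2) ?_ ?_ ?_
  · intro v
    rw [pos_aq _ ⟨rfl, rfl⟩]
    rfl
  · intro v
    have := pos_aq (Lt.P p) ⟨rfl, rfl⟩ 0 [Lt.b] v
    simpa [pos, src, tg] using this
  · intro u v hu hv
    obtain ⟨m, rfl⟩ := shape01 u hu
    obtain ⟨n, rfl⟩ := shape2 v hv
    rw [G_val F T _ (Lt.P p) (m + s) n (by simp [List.count_cons, List.count_replicate])
      (by simp [List.count_cons, List.count_replicate])
      (by simp [List.count_cons, List.count_replicate]) (by simp) ?_,
      G_val F T _ (Lt.P p) m (n + 1) (by simp [List.count_cons, List.count_replicate])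
      (by simp [List.count_cons, List.count_replicate])
      (by simp [List.count_cons, List.count_replicate]; try omega) (by simp) ?_]
    · refine ite_iff F ?_
      simp only [H, modulus_eq hT h]
      have : m + s + s * n = m + s * (n + 1) := by ring
      rw [this]
    · intro x hx
      simp only [List.cons_append, List.mem_cons, List.mem_append, List.mem_replicate,
        List.not_mem_nil, or_false] at hx
      tauto
    · intro x hx
      simp only [List.cons_append, List.mem_cons, List.mem_append, List.mem_replicate,
        List.not_mem_nil, or_false] at hx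
      tauto

theorem rel2 (hT : Det T) {p s s0 r r0 : ℕ} {o : Option ℕ} (h : (p, s, s0, r, r0, o) ∈ T) :
    Rel F T (W F (Lt.L :: (List.replicate s0 Lt.a ++ [Lt.P p])))
      (W F [Lt.L, Lt.Q (p, s, s0, r, r0, o)]) := by
  classical
  refine rel_bin F T (i := 0) (j := 2) ?_ ?_ ?_
  · intro v
    rw [pos]
    simp only [src, tg, id]
    rw [pos_aq _ ⟨rfl, rfl⟩]
    simp only [if_true, eq_comm (a := v)]
    rfl
  · intro v
    rw [pos, pos]
    simp only [src, tg, id, if_true, eq_comm (a := v)]
    rfl
  · intro u v hu hv
    obtain rfl := shape00 u hu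
    obtain ⟨n, rfl⟩ := shape2 v hv
    rw [G_val F T _ (Lt.P p) s0 n (by simp [List.count_cons, List.count_replicate])
      (by simp [List.count_cons, List.count_replicate])
      (by simp [List.count_cons, List.count_replicate]) (by simp) ?_,
      G_val F T _ (Lt.Q (p, s, s0, r, r0, o)) 0 n (by simp [List.count_cons, List.count_replicate])
      (by simp [List.count_cons, List.count_replicate])
      (by simp [List.count_cons, List.count_replicate]) (by simp) ?_]
    · refine ite_iff F ?_
      simp only [H, modulus_eq hT h]
      have e1 : s0 + s * n = s * n + s0 := by ring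
      have e2 : 0 + r * n + r0 = r * n + r0 := by ring
      rw [e1, e2]
      exact halts_step hT h n
    · intro x hx
      simp only [List.cons_append, List.mem_cons, List.mem_append, List.mem_replicate,
        List.not_mem_nil, or_false, List.nil_append] at hx
      tauto
    · intro x hx
      simp only [List.cons_append, List.mem_cons, List.mem_append, List.mem_replicate,
        List.not_mem_nil, or_false, List.nil_append] at hx
      tauto

theorem rel3 {p s s0 r r0 : ℕ} {o : Option ℕ} :
    Rel F T (W F [Lt.Q (p, s, s0, r, r0, o), Lt.b])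
      (W F (List.replicate r Lt.a ++ [Lt.Q (p, s, s0, r, r0, o)])) := by
  classical
  refine rel_bin F T (i := 1) (j := 2) ?_ ?_ ?_
  · intro v
    have := pos_aq (Lt.Q (p, s, s0, r, r0, o)) ⟨rfl, rfl⟩ 0 [Lt.b] v
    simpa [pos, src, tg] using this
  · intro v
    rw [pos_aq _ ⟨rfl, rfl⟩]
    rfl
  · intro u v hu hv
    obtain ⟨m, rfl⟩ := shape01 u hu
    obtain ⟨n, rfl⟩ := shape2 v hv
    rw [G_val F T _ (Lt.Q (p, s, s0, r, r0, o)) m (n + 1)
      (by simp [List.count_cons, List.count_replicate])
      (by simp [List.count_cons, List.count_replicate])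
      (by simp [List.count_cons, List.count_replicate]; try omega) (by simp) ?_,
      G_val F T _ (Lt.Q (p, s, s0, r, r0, o)) (m + r) n
      (by simp [List.count_cons, List.count_replicate])
      (by simp [List.count_cons, List.count_replicate])
      (by simp [List.count_cons, List.count_replicate]) (by simp) ?_]
    · refine ite_iff F ?_
      simp only [H]
      have : m + r * (n + 1) + r0 = m + r + r * n + r0 := by ring
      rw [this]
    · intro x hx
      simp only [List.cons_append, List.mem_cons, List.mem_append, List.mem_replicate,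
        List.not_mem_nil, or_false] at hx
      tauto
    · intro x hx
      simp only [List.cons_append, List.mem_cons, List.mem_append, List.mem_replicate,
        List.not_mem_nil, or_false] at hx
      tauto

theorem rel4 {p s s0 r r0 : ℕ} :
    Rel F T (W F [Lt.Q (p, s, s0, r, r0, none), Lt.R]) 0 := by
  classical
  refine rel_zero F T (i := 1) (j := 3) ?_ ?_
  · intro v
    have := pos_aq (Lt.Q (p, s, s0, r, r0, none)) ⟨rfl, rfl⟩ 0 [Lt.R] v
    simpa [pos, src, tg] using this
  · intro u v hu hv
    obtain ⟨m, rfl⟩ := shape01 u hu
    obtain rfl := shape3 v hv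
    rw [G_val F T _ (Lt.Q (p, s, s0, r, r0, none)) m 0
      (by simp [List.count_cons, List.count_replicate])
      (by simp [List.count_cons, List.count_replicate])
      (by simp [List.count_cons, List.count_replicate]) (by simp) ?_]
    · rw [if_pos]
      exact HaltsT.stop _
    · intro x hx
      simp only [List.cons_append, List.mem_cons, List.mem_append, List.mem_replicate,
        List.not_mem_nil, or_false] at hx
      tauto

theorem rel5 {p s s0 r r0 q : ℕ} :
    Rel F T (W F [Lt.Q (p, s, s0, r, r0, some q), Lt.R])
      (W F (List.replicate r0 Lt.a ++ [Lt.P q, Lt.R])) := by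
  classical
  refine rel_bin F T (i := 1) (j := 3) ?_ ?_ ?_
  · intro v
    have := pos_aq (Lt.Q (p, s, s0, r, r0, some q)) ⟨rfl, rfl⟩ 0 [Lt.R] v
    simpa [pos, src, tg] using this
  · intro v
    rw [pos_aq _ ⟨rfl, rfl⟩]
    rfl
  · intro u v hu hv
    obtain ⟨m, rfl⟩ := shape01 u hu
    obtain rfl := shape3 v hv
    rw [G_val F T _ (Lt.Q (p, s, s0, r, r0, some q)) m 0
      (by simp [List.count_cons, List.count_replicate])
      (by simp [List.count_cons, List.count_replicate])
      (by simp [List.count_cons, List.count_replicate]) (by simp) ?_,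
      G_val F T _ (Lt.P q) (m + r0) 0
      (by simp [List.count_cons, List.count_replicate])
      (by simp [List.count_cons, List.count_replicate])
      (by simp [List.count_cons, List.count_replicate]) (by simp) ?_]
    · refine ite_iff F ?_
      simp only [H]
      have : m + r * 0 + r0 = m + r0 + modulus T q * 0 := by ring
      rw [this]
    · intro x hx
      simp only [List.cons_append, List.mem_cons, List.mem_append, List.mem_replicate,
        List.not_mem_nil, or_false] at hx
      tauto
    · intro x hx
      simp only [List.cons_append, List.mem_cons, List.mem_append, List.mem_replicate,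
        List.not_mem_nil, or_false] at hx
      tauto

theorem bwd (hT : Det T) {A : Type v} [NonUnitalRing A] [Module F A] (g : A →ₙₐ[F] B F T)
    (hg : Function.Injective g) (s : ℕ → A)
    (hs : ∀ k, g (s k) = mk F T (FreeAlgebra.ι F (dc k))) (p x : ℕ)
    (h : Holds F A (rels T, tgt p x)) : HaltsT T (some p) x := by
  classical
  by_contra hn
  have inc_sub : ∀ X : List Lt, (X.map fun t => g (s (cd t))).prod = mk F T (W F X) := by
    intro X
    rw [W, map_list_prod, List.map_map]
    congr 1
    refine List.map_congr_left fun t _ => ?_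
    rw [hs, dc_cd]
    rfl
  have hb : ∀ X Y : List Lt, X ≠ [] → Y ≠ [] → Rel F T (W F X) (W F Y) →
      eval s (castPoly F (bin X Y)) = 0 := by
    intro X Y hX hY hr
    apply hg
    rw [eval_bin F g _ X Y hX hY, inc_sub, inc_sub, (mk_eq F T _ _).2 hr, sub_self,
      map_zero]
  have h1 := h s ?_
  · have h2 := congrArg g h1
    rw [map_zero] at h2
    simp only [tgt] at h2
    rw [eval_one F g _ _ (by simp [cfg]), inc_sub, ← map_zero (mk F T), mk_eq] at h2
    have h3 := h2 1 1
    rw [one_mul, mul_one, one_mul, mul_one, map_zero, Ph_word, if_pos] at h3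
    · rw [G_val F T _ (Lt.P p) x 0 (by simp [cfg, List.count_cons, List.count_replicate])
        (by simp [cfg, List.count_cons, List.count_replicate])
        (by simp [cfg, List.count_cons, List.count_replicate]) (by simp [cfg]) ?_] at h3
      · rw [if_neg] at h3
        · exact one_ne_zero h3
        · intro hH
          apply hn
          simpa [H] using hH
      · intro x hx
        simp only [cfg, List.mem_cons, List.mem_append, List.mem_replicate,
          List.not_mem_nil, or_false] at hx
        tauto
    · have : Good (cfg p x) := ⟨x, Lt.P p, 0, ⟨rfl, rfl⟩, rfl⟩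
      exact (pos_good (id : Fin 4 → Fin 4) this).1
  · intro f hf
    obtain ⟨t, ht, hf⟩ := List.mem_flatMap.1 hf
    obtain ⟨p', s', s0, r, r0, o⟩ := t
    simp only [relOf, List.mem_cons, List.not_mem_nil, or_false] at hf
    rcases hf with rfl | rfl | rfl | rfl
    · exact hb _ _ (by simp) (by simp) (rel1 F hT ht)
    · exact hb _ _ (by simp) (by simp) (rel2 F hT ht)
    · exact hb _ _ (by simp) (by simp) (rel3 F)
    · rcases o with _ | q
      · apply hg
        simp only
        rw [eval_one F g _ _ (by simp), inc_sub, (mk_eq F T _ _).2 (rel4 F), map_zero,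
          map_zero]
      · exact hb _ _ (by simp) (by simp) (rel5 F)

/-- the elements of the syntactic algebra substituted for the variables -/
noncomputable def sub (T : List Tr) (k : ℕ) : Bp F T :=
  ⟨mk F T (FreeAlgebra.ι F (dc k)), FreeAlgebra.ι F (dc k), by simp [aug], rfl⟩

theorem bwd_Bp (hT : Det T) (p x : ℕ) (h : Holds F (Bp F T) (rels T, tgt p x)) :
    HaltsT T (some p) x :=
  bwd F hT (inc F T) (inc_inj F T) (sub F T) (fun _ => rfl) p x h

theorem bwd_B (hT : Det T) (p x : ℕ) (h : Holds F (B F T) (rels T, tgt p x)) :
    HaltsT T (some p) x :=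
  bwd F hT (NonUnitalAlgHom.id F (B F T)) (fun _ _ h => h)
    (fun k => mk F T (FreeAlgebra.ι F (dc k))) (fun _ => rfl) p x h

end

end Pool.Agent.H234EP
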