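import Mathlib

set_option autoImplicit false
set_option linter.unusedVariables false

/-!
Composition of a 6-ary Siggers operation giving a 5-ary one. The definitions `x0, ..., x29` are
elements of the algebra, the definitions `t0, ..., t79` are 5-ary compositions; the list was found by
a SAT solver and is checked here.
-/

namespace Pool.Agent.H234EP.Siggers

/-- The term operations of the algebra with the basic operations `op i`: all compositions of basic
operations and projections. -/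
inductive IsTerm {A ι : Type*} {ar : ι → ℕ} (op : (i : ι) → (Fin (ar i) → A) → A) :
    (n : ℕ) → ((Fin n → A) → A) → Prop
  | proj {n : ℕ} (j : Fin n) : IsTerm op n (fun v => v j)
  | comp {n : ℕ} (i : ι) (g : Fin (ar i) → (Fin n → A) → A) (hg : ∀ j, IsTerm op n (g j)) :
      IsTerm op n (fun v => op i (fun j => g j v))

section

variable {A ι : Type*} {ar : ι → ℕ} {op : (i : ι) → (Fin (ar i) → A) → A}

theorem IsTerm.subst {m : ℕ} {S : (Fin m → A) → A} (hS : IsTerm op m S) {n : ℕ}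
    (g : Fin m → (Fin n → A) → A) (hg : ∀ j, IsTerm op n (g j)) :
    IsTerm op n (fun v => S (fun j => g j v)) := by
  induction hS with
  | proj j => exact hg j
  | comp i h hh ih => exact IsTerm.comp i (fun k v => h k (fun j => g j v)) (fun k => ih k)

/-- a 6-ary operation as a function of six arguments -/
def cur (S : (Fin 6 → A) → A) (a b c d e f : A) : A := S ![a, b, c, d, e, f]

theorem comp6 {S : (Fin 6 → A) → A} (hS : IsTerm op 6 S) {n : ℕ} {g0 g1 g2 g3 g4 g5 : (Fin n → A) → A}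
    (h0 : IsTerm op n g0) (h1 : IsTerm op n g1) (h2 : IsTerm op n g2) (h3 : IsTerm op n g3)
    (h4 : IsTerm op n g4) (h5 : IsTerm op n g5) :
    IsTerm op n (fun v => cur S (g0 v) (g1 v) (g2 v) (g3 v) (g4 v) (g5 v)) := by
  have h := hS.subst ![g0, g1, g2, g3, g4, g5] (by intro j; fin_cases j <;> assumption)
  convert h using 1
  funext v
  unfold cur
  congr 1
  funext j
  fin_cases j <;> rfl

end

section body

variable {A : Type*}

def x0 (s : A → A → A → A → A → A → A) (a r e : A) : A := s e a a r a e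
def x1 (s : A → A → A → A → A → A → A) (a r e : A) : A := s r e r a e a
def x2 (s : A → A → A → A → A → A → A) (a r e : A) : A := s a r a e r e
def x3 (s : A → A → A → A → A → A → A) (a r e : A) : A := s e a e r a r
def x4 (s : A → A → A → A → A → A → A) (a r e : A) : A := s a r a r a e
def x5 (s : A → A → A → A → A → A → A) (a r e : A) : A := s a e a e r a
def x6 (s : A → A → A → A → A → A → A) (a r e : A) : A := s (x0 s a r e) (x2 s a r e) (x3 s a r e) (x4 s a r e) (x5 s a r e) (x1 s a r e)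
def x7 (s : A → A → A → A → A → A → A) (a r e : A) : A := s (x1 s a r e) (x3 s a r e) (x1 s a r e) (x2 s a r e) (x3 s a r e) (x2 s a r e)
def x8 (s : A → A → A → A → A → A → A) (a r e : A) : A := s a r a e a e
def x9 (s : A → A → A → A → A → A → A) (a r e : A) : A := s (x0 s a r e) (x2 s a r e) (x3 s a r e) (x8 s a r e) (x5 s a r e) (x1 s a r e)
def x10 (s : A → A → A → A → A → A → A) (a r e : A) : A := s (x2 s a r e) (x1 s a r e) (x2 s a r e) (x3 s a r e) (x1 s a r e) (x3 s a r e)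
def x11 (s : A → A → A → A → A → A → A) (a r e : A) : A := s (x3 s a r e) (x8 s a r e) (x5 s a r e) (x1 s a r e) (x2 s a r e) (x0 s a r e)
def x12 (s : A → A → A → A → A → A → A) (a r e : A) : A := s a r a e r a
def x13 (s : A → A → A → A → A → A → A) (a r e : A) : A := s (x3 s a r e) (x8 s a r e) (x12 s a r e) (x1 s a r e) (x2 s a r e) (x0 s a r e)
def x14 (s : A → A → A → A → A → A → A) (a r e : A) : A := s (x12 s a r e) (x1 s a r e) (x2 s a r e) (x0 s a r e) (x8 s a r e) (x3 s a r e)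
def x15 (s : A → A → A → A → A → A → A) (a r e : A) : A := s (x3 s a r e) (x2 s a r e) (x3 s a r e) (x1 s a r e) (x2 s a r e) (x1 s a r e)
def x16 (s : A → A → A → A → A → A → A) (a r e : A) : A := s (x5 s a r e) (x1 s a r e) (x2 s a r e) (x0 s a r e) (x4 s a r e) (x3 s a r e)
def x17 (s : A → A → A → A → A → A → A) (a r e : A) : A := s (x6 s a r e) (x7 s a r e) (x10 s a r e) (x13 s a r e) (x14 s a r e) (x15 s a r e)
def x18 (s : A → A → A → A → A → A → A) (a r e : A) : A := s (x7 s a r e) (x9 s a r e) (x11 s a r e) (x10 s a r e) (x15 s a r e) (x16 s a r e)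
def x19 (s : A → A → A → A → A → A → A) (a r e : A) : A := s a e r a e a
def x20 (s : A → A → A → A → A → A → A) (a r e : A) : A := s e a e a a r
def x21 (s : A → A → A → A → A → A → A) (a r e : A) : A := s r a r a e a
def x22 (s : A → A → A → A → A → A → A) (a r e : A) : A := s (x19 s a r e) (x20 s a r e) (x19 s a r e) (x21 s a r e) (x20 s a r e) (x21 s a r e)
def x23 (s : A → A → A → A → A → A → A) (a r e : A) : A := s a e r a r a
def x24 (s : A → A → A → A → A → A → A) (a r e : A) : A := s r a e a a r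
def x25 (s : A → A → A → A → A → A → A) (a r e : A) : A := s (x21 s a r e) (x23 s a r e) (x21 s a r e) (x24 s a r e) (x23 s a r e) (x24 s a r e)
def x26 (s : A → A → A → A → A → A → A) (a r e : A) : A := s r a e a e a
def x27 (s : A → A → A → A → A → A → A) (a r e : A) : A := s (x20 s a r e) (x26 s a r e) (x20 s a r e) (x19 s a r e) (x26 s a r e) (x19 s a r e)
def x28 (s : A → A → A → A → A → A → A) (a r e : A) : A := s (x25 s a r e) (x22 s a r e) (x25 s a r e) (x27 s a r e) (x22 s a r e) (x27 s a r e)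
def x29 (s : A → A → A → A → A → A → A) (a r e : A) : A := s (x17 s a r e) (x18 s a r e) (x17 s a r e) (x28 s a r e) (x18 s a r e) (x28 s a r e)
def t0 (s : A → A → A → A → A → A → A) (v0 v1 v2 v3 v4 : A) : A := s v3 v2 v0 v1 v2 v4
def t1 (s : A → A → A → A → A → A → A) (v0 v1 v2 v3 v4 : A) : A := s v2 v1 v2 v3 v1 v3
def t2 (s : A → A → A → A → A → A → A) (v0 v1 v2 v3 v4 : A) : A := s v3 v2 v3 v1 v2 v1
def t3 (s : A → A → A → A → A → A → A) (v0 v1 v2 v3 v4 : A) : A := s v0 v1 v2 v1 v2 v3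
def t4 (s : A → A → A → A → A → A → A) (v0 v1 v2 v3 v4 : A) : A := s v2 v4 v2 v3 v1 v0
def t5 (s : A → A → A → A → A → A → A) (v0 v1 v2 v3 v4 : A) : A := s v1 v3 v1 v2 v3 v2
def t6 (s : A → A → A → A → A → A → A) (v0 v1 v2 v3 v4 : A) : A := s (t0 s v0 v1 v2 v3 v4) (t1 s v0 v1 v2 v3 v4) (t2 s v0 v1 v2 v3 v4) (t3 s v0 v1 v2 v3 v4) (t4 s v0 v1 v2 v3 v4) (t5 s v0 v1 v2 v3 v4)
def t7 (s : A → A → A → A → A → A → A) (v0 v1 v2 v3 v4 : A) : A := s v2 v4 v1 v3 v1 v2
def t8 (s : A → A → A → A → A → A → A) (v0 v1 v2 v3 v4 : A) : A := s v1 v3 v1 v2 v4 v2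
def t9 (s : A → A → A → A → A → A → A) (v0 v1 v2 v3 v4 : A) : A := s v1 v2 v4 v2 v3 v1
def t10 (s : A → A → A → A → A → A → A) (v0 v1 v2 v3 v4 : A) : A := s (t7 s v0 v1 v2 v3 v4) (t5 s v0 v1 v2 v3 v4) (t1 s v0 v1 v2 v3 v4) (t8 s v0 v1 v2 v3 v4) (t9 s v0 v1 v2 v3 v4) (t2 s v0 v1 v2 v3 v4)
def t11 (s : A → A → A → A → A → A → A) (v0 v1 v2 v3 v4 : A) : A := s (t1 s v0 v1 v2 v3 v4) (t8 s v0 v1 v2 v3 v4) (t9 s v0 v1 v2 v3 v4) (t2 s v0 v1 v2 v3 v4) (t5 s v0 v1 v2 v3 v4) (t7 s v0 v1 v2 v3 v4)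
def t12 (s : A → A → A → A → A → A → A) (v0 v1 v2 v3 v4 : A) : A := s v0 v1 v2 v4 v2 v3
def t13 (s : A → A → A → A → A → A → A) (v0 v1 v2 v3 v4 : A) : A := s v2 v1 v2 v3 v1 v0
def t14 (s : A → A → A → A → A → A → A) (v0 v1 v2 v3 v4 : A) : A := s (t2 s v0 v1 v2 v3 v4) (t12 s v0 v1 v2 v3 v4) (t13 s v0 v1 v2 v3 v4) (t5 s v0 v1 v2 v3 v4) (t1 s v0 v1 v2 v3 v4) (t0 s v0 v1 v2 v3 v4)
def t15 (s : A → A → A → A → A → A → A) (v0 v1 v2 v3 v4 : A) : A := s (t13 s v0 v1 v2 v3 v4) (t5 s v0 v1 v2 v3 v4) (t1 s v0 v1 v2 v3 v4) (t0 s v0 v1 v2 v3 v4) (t12 s v0 v1 v2 v3 v4) (t2 s v0 v1 v2 v3 v4)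
def t16 (s : A → A → A → A → A → A → A) (v0 v1 v2 v3 v4 : A) : A := s v1 v3 v1 v0 v4 v2
def t17 (s : A → A → A → A → A → A → A) (v0 v1 v2 v3 v4 : A) : A := s (t9 s v0 v1 v2 v3 v4) (t2 s v0 v1 v2 v3 v4) (t5 s v0 v1 v2 v3 v4) (t7 s v0 v1 v2 v3 v4) (t16 s v0 v1 v2 v3 v4) (t1 s v0 v1 v2 v3 v4)
def t18 (s : A → A → A → A → A → A → A) (v0 v1 v2 v3 v4 : A) : A := s (t6 s v0 v1 v2 v3 v4) (t10 s v0 v1 v2 v3 v4) (t11 s v0 v1 v2 v3 v4) (t14 s v0 v1 v2 v3 v4) (t15 s v0 v1 v2 v3 v4) (t17 s v0 v1 v2 v3 v4)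
def t19 (s : A → A → A → A → A → A → A) (v0 v1 v2 v3 v4 : A) : A := s (t7 s v0 v1 v2 v3 v4) (t5 s v0 v1 v2 v3 v4) (t1 s v0 v1 v2 v3 v4) (t16 s v0 v1 v2 v3 v4) (t9 s v0 v1 v2 v3 v4) (t2 s v0 v1 v2 v3 v4)
def t20 (s : A → A → A → A → A → A → A) (v0 v1 v2 v3 v4 : A) : A := s (t0 s v0 v1 v2 v3 v4) (t1 s v0 v1 v2 v3 v4) (t2 s v0 v1 v2 v3 v4) (t12 s v0 v1 v2 v3 v4) (t4 s v0 v1 v2 v3 v4) (t5 s v0 v1 v2 v3 v4)
def t21 (s : A → A → A → A → A → A → A) (v0 v1 v2 v3 v4 : A) : A := s (t2 s v0 v1 v2 v3 v4) (t12 s v0 v1 v2 v3 v4) (t4 s v0 v1 v2 v3 v4) (t5 s v0 v1 v2 v3 v4) (t1 s v0 v1 v2 v3 v4) (t0 s v0 v1 v2 v3 v4)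
def t22 (s : A → A → A → A → A → A → A) (v0 v1 v2 v3 v4 : A) : A := s v1 v0 v4 v2 v3 v1
def t23 (s : A → A → A → A → A → A → A) (v0 v1 v2 v3 v4 : A) : A := s (t1 s v0 v1 v2 v3 v4) (t8 s v0 v1 v2 v3 v4) (t22 s v0 v1 v2 v3 v4) (t2 s v0 v1 v2 v3 v4) (t5 s v0 v1 v2 v3 v4) (t7 s v0 v1 v2 v3 v4)
def t24 (s : A → A → A → A → A → A → A) (v0 v1 v2 v3 v4 : A) : A := s (t22 s v0 v1 v2 v3 v4) (t2 s v0 v1 v2 v3 v4) (t5 s v0 v1 v2 v3 v4) (t7 s v0 v1 v2 v3 v4) (t8 s v0 v1 v2 v3 v4) (t1 s v0 v1 v2 v3 v4)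
def t25 (s : A → A → A → A → A → A → A) (v0 v1 v2 v3 v4 : A) : A := s (t4 s v0 v1 v2 v3 v4) (t5 s v0 v1 v2 v3 v4) (t1 s v0 v1 v2 v3 v4) (t0 s v0 v1 v2 v3 v4) (t3 s v0 v1 v2 v3 v4) (t2 s v0 v1 v2 v3 v4)
def t26 (s : A → A → A → A → A → A → A) (v0 v1 v2 v3 v4 : A) : A := s (t19 s v0 v1 v2 v3 v4) (t20 s v0 v1 v2 v3 v4) (t21 s v0 v1 v2 v3 v4) (t23 s v0 v1 v2 v3 v4) (t24 s v0 v1 v2 v3 v4) (t25 s v0 v1 v2 v3 v4)
def t27 (s : A → A → A → A → A → A → A) (v0 v1 v2 v3 v4 : A) : A := s v4 v2 v0 v1 v2 v4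
def t28 (s : A → A → A → A → A → A → A) (v0 v1 v2 v3 v4 : A) : A := s v2 v1 v2 v4 v1 v3
def t29 (s : A → A → A → A → A → A → A) (v0 v1 v2 v3 v4 : A) : A := s v4 v2 v3 v1 v2 v1
def t30 (s : A → A → A → A → A → A → A) (v0 v1 v2 v3 v4 : A) : A := s v0 v1 v0 v1 v2 v4
def t31 (s : A → A → A → A → A → A → A) (v0 v1 v2 v3 v4 : A) : A := s v2 v4 v2 v4 v1 v0
def t32 (s : A → A → A → A → A → A → A) (v0 v1 v2 v3 v4 : A) : A := s v3 v1 v0 v1 v2 v4
def t33 (s : A → A → A → A → A → A → A) (v0 v1 v2 v3 v4 : A) : A := s (t27 s v0 v1 v2 v3 v4) (t28 s v0 v1 v2 v3 v4) (t29 s v0 v1 v2 v3 v4) (t30 s v0 v1 v2 v3 v4) (t31 s v0 v1 v2 v3 v4) (t32 s v0 v1 v2 v3 v4)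
def t34 (s : A → A → A → A → A → A → A) (v0 v1 v2 v3 v4 : A) : A := s v4 v2 v3 v1 v0 v1
def t35 (s : A → A → A → A → A → A → A) (v0 v1 v2 v3 v4 : A) : A := s v0 v1 v2 v4 v1 v3
def t36 (s : A → A → A → A → A → A → A) (v0 v1 v2 v3 v4 : A) : A := s (t32 s v0 v1 v2 v3 v4) (t34 s v0 v1 v2 v3 v4) (t32 s v0 v1 v2 v3 v4) (t35 s v0 v1 v2 v3 v4) (t34 s v0 v1 v2 v3 v4) (t35 s v0 v1 v2 v3 v4)
def t37 (s : A → A → A → A → A → A → A) (v0 v1 v2 v3 v4 : A) : A := s v3 v1 v2 v1 v2 v4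
def t38 (s : A → A → A → A → A → A → A) (v0 v1 v2 v3 v4 : A) : A := s (t28 s v0 v1 v2 v3 v4) (t37 s v0 v1 v2 v3 v4) (t28 s v0 v1 v2 v3 v4) (t29 s v0 v1 v2 v3 v4) (t37 s v0 v1 v2 v3 v4) (t29 s v0 v1 v2 v3 v4)
def t39 (s : A → A → A → A → A → A → A) (v0 v1 v2 v3 v4 : A) : A := s v0 v1 v0 v4 v2 v4
def t40 (s : A → A → A → A → A → A → A) (v0 v1 v2 v3 v4 : A) : A := s v0 v1 v2 v4 v1 v0
def t41 (s : A → A → A → A → A → A → A) (v0 v1 v2 v3 v4 : A) : A := s v4 v2 v0 v1 v0 v4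
def t42 (s : A → A → A → A → A → A → A) (v0 v1 v2 v3 v4 : A) : A := s (t34 s v0 v1 v2 v3 v4) (t39 s v0 v1 v2 v3 v4) (t40 s v0 v1 v2 v3 v4) (t32 s v0 v1 v2 v3 v4) (t35 s v0 v1 v2 v3 v4) (t41 s v0 v1 v2 v3 v4)
def t43 (s : A → A → A → A → A → A → A) (v0 v1 v2 v3 v4 : A) : A := s v2 v1 v2 v4 v1 v0
def t44 (s : A → A → A → A → A → A → A) (v0 v1 v2 v3 v4 : A) : A := s v0 v1 v2 v4 v2 v4
def t45 (s : A → A → A → A → A → A → A) (v0 v1 v2 v3 v4 : A) : A := s (t43 s v0 v1 v2 v3 v4) (t37 s v0 v1 v2 v3 v4) (t28 s v0 v1 v2 v3 v4) (t27 s v0 v1 v2 v3 v4) (t44 s v0 v1 v2 v3 v4) (t29 s v0 v1 v2 v3 v4)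
def t46 (s : A → A → A → A → A → A → A) (v0 v1 v2 v3 v4 : A) : A := s (t29 s v0 v1 v2 v3 v4) (t28 s v0 v1 v2 v3 v4) (t29 s v0 v1 v2 v3 v4) (t32 s v0 v1 v2 v3 v4) (t28 s v0 v1 v2 v3 v4) (t32 s v0 v1 v2 v3 v4)
def t47 (s : A → A → A → A → A → A → A) (v0 v1 v2 v3 v4 : A) : A := s (t33 s v0 v1 v2 v3 v4) (t36 s v0 v1 v2 v3 v4) (t38 s v0 v1 v2 v3 v4) (t42 s v0 v1 v2 v3 v4) (t45 s v0 v1 v2 v3 v4) (t46 s v0 v1 v2 v3 v4)
def t48 (s : A → A → A → A → A → A → A) (v0 v1 v2 v3 v4 : A) : A := s v2 v4 v1 v0 v1 v2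
def t49 (s : A → A → A → A → A → A → A) (v0 v1 v2 v3 v4 : A) : A := s v1 v0 v1 v2 v3 v2
def t50 (s : A → A → A → A → A → A → A) (v0 v1 v2 v3 v4 : A) : A := s v1 v2 v3 v2 v0 v1
def t51 (s : A → A → A → A → A → A → A) (v0 v1 v2 v3 v4 : A) : A := s v1 v0 v1 v0 v4 v2
def t52 (s : A → A → A → A → A → A → A) (v0 v1 v2 v3 v4 : A) : A := s v1 v2 v4 v2 v0 v1
def t53 (s : A → A → A → A → A → A → A) (v0 v1 v2 v3 v4 : A) : A := s v2 v3 v1 v0 v1 v2
def t54 (s : A → A → A → A → A → A → A) (v0 v1 v2 v3 v4 : A) : A := s (t48 s v0 v1 v2 v3 v4) (t49 s v0 v1 v2 v3 v4) (t50 s v0 v1 v2 v3 v4) (t51 s v0 v1 v2 v3 v4) (t52 s v0 v1 v2 v3 v4) (t53 s v0 v1 v2 v3 v4)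
def t55 (s : A → A → A → A → A → A → A) (v0 v1 v2 v3 v4 : A) : A := s v2 v3 v1 v0 v4 v2
def t56 (s : A → A → A → A → A → A → A) (v0 v1 v2 v3 v4 : A) : A := s v4 v2 v3 v2 v0 v1
def t57 (s : A → A → A → A → A → A → A) (v0 v1 v2 v3 v4 : A) : A := s (t55 s v0 v1 v2 v3 v4) (t56 s v0 v1 v2 v3 v4) (t55 s v0 v1 v2 v3 v4) (t49 s v0 v1 v2 v3 v4) (t56 s v0 v1 v2 v3 v4) (t49 s v0 v1 v2 v3 v4)
def t58 (s : A → A → A → A → A → A → A) (v0 v1 v2 v3 v4 : A) : A := s (t49 s v0 v1 v2 v3 v4) (t53 s v0 v1 v2 v3 v4) (t49 s v0 v1 v2 v3 v4) (t50 s v0 v1 v2 v3 v4) (t53 s v0 v1 v2 v3 v4) (t50 s v0 v1 v2 v3 v4)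
def t59 (s : A → A → A → A → A → A → A) (v0 v1 v2 v3 v4 : A) : A := s v1 v0 v4 v2 v4 v2
def t60 (s : A → A → A → A → A → A → A) (v0 v1 v2 v3 v4 : A) : A := s v4 v0 v4 v2 v0 v1
def t61 (s : A → A → A → A → A → A → A) (v0 v1 v2 v3 v4 : A) : A := s v1 v0 v4 v2 v3 v2
def t62 (s : A → A → A → A → A → A → A) (v0 v1 v2 v3 v4 : A) : A := s v2 v4 v1 v0 v4 v2
def t63 (s : A → A → A → A → A → A → A) (v0 v1 v2 v3 v4 : A) : A := s (t56 s v0 v1 v2 v3 v4) (t59 s v0 v1 v2 v3 v4) (t60 s v0 v1 v2 v3 v4) (t55 s v0 v1 v2 v3 v4) (t61 s v0 v1 v2 v3 v4) (t62 s v0 v1 v2 v3 v4)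
def t64 (s : A → A → A → A → A → A → A) (v0 v1 v2 v3 v4 : A) : A := s v1 v0 v1 v2 v4 v2
def t65 (s : A → A → A → A → A → A → A) (v0 v1 v2 v3 v4 : A) : A := s (t60 s v0 v1 v2 v3 v4) (t55 s v0 v1 v2 v3 v4) (t49 s v0 v1 v2 v3 v4) (t62 s v0 v1 v2 v3 v4) (t64 s v0 v1 v2 v3 v4) (t56 s v0 v1 v2 v3 v4)
def t66 (s : A → A → A → A → A → A → A) (v0 v1 v2 v3 v4 : A) : A := s (t56 s v0 v1 v2 v3 v4) (t61 s v0 v1 v2 v3 v4) (t56 s v0 v1 v2 v3 v4) (t55 s v0 v1 v2 v3 v4) (t61 s v0 v1 v2 v3 v4) (t55 s v0 v1 v2 v3 v4)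
def t67 (s : A → A → A → A → A → A → A) (v0 v1 v2 v3 v4 : A) : A := s (t54 s v0 v1 v2 v3 v4) (t57 s v0 v1 v2 v3 v4) (t58 s v0 v1 v2 v3 v4) (t63 s v0 v1 v2 v3 v4) (t65 s v0 v1 v2 v3 v4) (t66 s v0 v1 v2 v3 v4)
def t68 (s : A → A → A → A → A → A → A) (v0 v1 v2 v3 v4 : A) : A := s (t27 s v0 v1 v2 v3 v4) (t28 s v0 v1 v2 v3 v4) (t29 s v0 v1 v2 v3 v4) (t39 s v0 v1 v2 v3 v4) (t31 s v0 v1 v2 v3 v4) (t32 s v0 v1 v2 v3 v4)
def t69 (s : A → A → A → A → A → A → A) (v0 v1 v2 v3 v4 : A) : A := s v0 v4 v2 v4 v1 v0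
def t70 (s : A → A → A → A → A → A → A) (v0 v1 v2 v3 v4 : A) : A := s (t34 s v0 v1 v2 v3 v4) (t39 s v0 v1 v2 v3 v4) (t69 s v0 v1 v2 v3 v4) (t32 s v0 v1 v2 v3 v4) (t35 s v0 v1 v2 v3 v4) (t41 s v0 v1 v2 v3 v4)
def t71 (s : A → A → A → A → A → A → A) (v0 v1 v2 v3 v4 : A) : A := s v0 v1 v2 v1 v2 v4
def t72 (s : A → A → A → A → A → A → A) (v0 v1 v2 v3 v4 : A) : A := s (t31 s v0 v1 v2 v3 v4) (t37 s v0 v1 v2 v3 v4) (t28 s v0 v1 v2 v3 v4) (t27 s v0 v1 v2 v3 v4) (t71 s v0 v1 v2 v3 v4) (t29 s v0 v1 v2 v3 v4)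
def t73 (s : A → A → A → A → A → A → A) (v0 v1 v2 v3 v4 : A) : A := s (t36 s v0 v1 v2 v3 v4) (t68 s v0 v1 v2 v3 v4) (t70 s v0 v1 v2 v3 v4) (t38 s v0 v1 v2 v3 v4) (t46 s v0 v1 v2 v3 v4) (t72 s v0 v1 v2 v3 v4)
def t74 (s : A → A → A → A → A → A → A) (v0 v1 v2 v3 v4 : A) : A := s (t48 s v0 v1 v2 v3 v4) (t49 s v0 v1 v2 v3 v4) (t50 s v0 v1 v2 v3 v4) (t64 s v0 v1 v2 v3 v4) (t52 s v0 v1 v2 v3 v4) (t53 s v0 v1 v2 v3 v4)
def t75 (s : A → A → A → A → A → A → A) (v0 v1 v2 v3 v4 : A) : A := s v4 v2 v4 v2 v0 v1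
def t76 (s : A → A → A → A → A → A → A) (v0 v1 v2 v3 v4 : A) : A := s (t56 s v0 v1 v2 v3 v4) (t59 s v0 v1 v2 v3 v4) (t75 s v0 v1 v2 v3 v4) (t55 s v0 v1 v2 v3 v4) (t61 s v0 v1 v2 v3 v4) (t62 s v0 v1 v2 v3 v4)
def t77 (s : A → A → A → A → A → A → A) (v0 v1 v2 v3 v4 : A) : A := s (t75 s v0 v1 v2 v3 v4) (t55 s v0 v1 v2 v3 v4) (t49 s v0 v1 v2 v3 v4) (t62 s v0 v1 v2 v3 v4) (t51 s v0 v1 v2 v3 v4) (t56 s v0 v1 v2 v3 v4)
def t78 (s : A → A → A → A → A → A → A) (v0 v1 v2 v3 v4 : A) : A := s (t57 s v0 v1 v2 v3 v4) (t74 s v0 v1 v2 v3 v4) (t76 s v0 v1 v2 v3 v4) (t58 s v0 v1 v2 v3 v4) (t66 s v0 v1 v2 v3 v4) (t77 s v0 v1 v2 v3 v4)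
def t79 (s : A → A → A → A → A → A → A) (v0 v1 v2 v3 v4 : A) : A := s (t18 s v0 v1 v2 v3 v4) (t26 s v0 v1 v2 v3 v4) (t47 s v0 v1 v2 v3 v4) (t67 s v0 v1 v2 v3 v4) (t73 s v0 v1 v2 v3 v4) (t78 s v0 v1 v2 v3 v4)
theorem t0_src {s : A → A → A → A → A → A → A} (hs : ∀ x y z, s x y x z y z = s y x z x z y) (a r e : A) : t0 s a r a e e = x0 s a r e := by
  unfold t0
  rfl
theorem t0_tgt {s : A → A → A → A → A → A → A} (hs : ∀ x y z, s x y x z y z = s y x z x z y) (a r e : A) : t0 s r a e r a = x1 s a r e := by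
  unfold t0
  rfl
theorem t1_src {s : A → A → A → A → A → A → A} (hs : ∀ x y z, s x y x z y z = s y x z x z y) (a r e : A) : t1 s a r a e e = x2 s a r e := by
  unfold t1
  rfl
theorem t1_tgt {s : A → A → A → A → A → A → A} (hs : ∀ x y z, s x y x z y z = s y x z x z y) (a r e : A) : t1 s r a e r a = x3 s a r e := by
  unfold t1
  rfl
theorem t2_src {s : A → A → A → A → A → A → A} (hs : ∀ x y z, s x y x z y z = s y x z x z y) (a r e : A) : t2 s a r a e e = x3 s a r e := by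
  unfold t2
  rfl
theorem t2_tgt {s : A → A → A → A → A → A → A} (hs : ∀ x y z, s x y x z y z = s y x z x z y) (a r e : A) : t2 s r a e r a = x1 s a r e := by
  unfold t2
  rfl
theorem t3_src {s : A → A → A → A → A → A → A} (hs : ∀ x y z, s x y x z y z = s y x z x z y) (a r e : A) : t3 s a r a e e = x4 s a r e := by
  unfold t3
  rfl
theorem t3_tgt {s : A → A → A → A → A → A → A} (hs : ∀ x y z, s x y x z y z = s y x z x z y) (a r e : A) : t3 s r a e r a = x2 s a r e := by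
  unfold t3
  exact (hs _ _ _).symm
theorem t4_src {s : A → A → A → A → A → A → A} (hs : ∀ x y z, s x y x z y z = s y x z x z y) (a r e : A) : t4 s a r a e e = x5 s a r e := by
  unfold t4
  rfl
theorem t4_tgt {s : A → A → A → A → A → A → A} (hs : ∀ x y z, s x y x z y z = s y x z x z y) (a r e : A) : t4 s r a e r a = x3 s a r e := by
  unfold t4
  rfl
theorem t5_src {s : A → A → A → A → A → A → A} (hs : ∀ x y z, s x y x z y z = s y x z x z y) (a r e : A) : t5 s a r a e e = x1 s a r e := by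
  unfold t5
  rfl
theorem t5_tgt {s : A → A → A → A → A → A → A} (hs : ∀ x y z, s x y x z y z = s y x z x z y) (a r e : A) : t5 s r a e r a = x2 s a r e := by
  unfold t5
  rfl
theorem t6_src {s : A → A → A → A → A → A → A} (hs : ∀ x y z, s x y x z y z = s y x z x z y) (a r e : A) : t6 s a r a e e = x6 s a r e := by
  unfold t6
  rw [t0_src hs a r e, t1_src hs a r e, t2_src hs a r e, t3_src hs a r e, t4_src hs a r e, t5_src hs a r e]
  rfl
theorem t6_tgt {s : A → A → A → A → A → A → A} (hs : ∀ x y z, s x y x z y z = s y x z x z y) (a r e : A) : t6 s r a e r a = x7 s a r e := by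
  unfold t6
  rw [t0_tgt hs a r e, t1_tgt hs a r e, t2_tgt hs a r e, t3_tgt hs a r e, t4_tgt hs a r e, t5_tgt hs a r e]
  rfl
theorem t7_src {s : A → A → A → A → A → A → A} (hs : ∀ x y z, s x y x z y z = s y x z x z y) (a r e : A) : t7 s a r a e e = x3 s a r e := by
  unfold t7
  exact (hs _ _ _).symm
theorem t7_tgt {s : A → A → A → A → A → A → A} (hs : ∀ x y z, s x y x z y z = s y x z x z y) (a r e : A) : t7 s r a e r a = x0 s a r e := by
  unfold t7
  rfl
theorem t8_src {s : A → A → A → A → A → A → A} (hs : ∀ x y z, s x y x z y z = s y x z x z y) (a r e : A) : t8 s a r a e e = x1 s a r e := by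
  unfold t8
  rfl
theorem t8_tgt {s : A → A → A → A → A → A → A} (hs : ∀ x y z, s x y x z y z = s y x z x z y) (a r e : A) : t8 s r a e r a = x8 s a r e := by
  unfold t8
  rfl
theorem t9_src {s : A → A → A → A → A → A → A} (hs : ∀ x y z, s x y x z y z = s y x z x z y) (a r e : A) : t9 s a r a e e = x2 s a r e := by
  unfold t9
  exact (hs _ _ _).symm
theorem t9_tgt {s : A → A → A → A → A → A → A} (hs : ∀ x y z, s x y x z y z = s y x z x z y) (a r e : A) : t9 s r a e r a = x5 s a r e := by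
  unfold t9
  rfl
theorem t10_src {s : A → A → A → A → A → A → A} (hs : ∀ x y z, s x y x z y z = s y x z x z y) (a r e : A) : t10 s a r a e e = x7 s a r e := by
  unfold t10
  rw [t1_src hs a r e, t2_src hs a r e, t5_src hs a r e, t7_src hs a r e, t8_src hs a r e, t9_src hs a r e]
  exact (hs _ _ _).symm
theorem t10_tgt {s : A → A → A → A → A → A → A} (hs : ∀ x y z, s x y x z y z = s y x z x z y) (a r e : A) : t10 s r a e r a = x9 s a r e := by
  unfold t10
  rw [t1_tgt hs a r e, t2_tgt hs a r e, t5_tgt hs a r e, t7_tgt hs a r e, t8_tgt hs a r e, t9_tgt hs a r e]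
  rfl
theorem t11_src {s : A → A → A → A → A → A → A} (hs : ∀ x y z, s x y x z y z = s y x z x z y) (a r e : A) : t11 s a r a e e = x10 s a r e := by
  unfold t11
  rw [t1_src hs a r e, t2_src hs a r e, t5_src hs a r e, t7_src hs a r e, t8_src hs a r e, t9_src hs a r e]
  rfl
theorem t11_tgt {s : A → A → A → A → A → A → A} (hs : ∀ x y z, s x y x z y z = s y x z x z y) (a r e : A) : t11 s r a e r a = x11 s a r e := by
  unfold t11
  rw [t1_tgt hs a r e, t2_tgt hs a r e, t5_tgt hs a r e, t7_tgt hs a r e, t8_tgt hs a r e, t9_tgt hs a r e]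
  rfl
theorem t12_src {s : A → A → A → A → A → A → A} (hs : ∀ x y z, s x y x z y z = s y x z x z y) (a r e : A) : t12 s a r a e e = x8 s a r e := by
  unfold t12
  rfl
theorem t12_tgt {s : A → A → A → A → A → A → A} (hs : ∀ x y z, s x y x z y z = s y x z x z y) (a r e : A) : t12 s r a e r a = x2 s a r e := by
  unfold t12
  exact (hs _ _ _).symm
theorem t13_src {s : A → A → A → A → A → A → A} (hs : ∀ x y z, s x y x z y z = s y x z x z y) (a r e : A) : t13 s a r a e e = x12 s a r e := by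
  unfold t13
  rfl
theorem t13_tgt {s : A → A → A → A → A → A → A} (hs : ∀ x y z, s x y x z y z = s y x z x z y) (a r e : A) : t13 s r a e r a = x3 s a r e := by
  unfold t13
  rfl
theorem t14_src {s : A → A → A → A → A → A → A} (hs : ∀ x y z, s x y x z y z = s y x z x z y) (a r e : A) : t14 s a r a e e = x13 s a r e := by
  unfold t14
  rw [t0_src hs a r e, t12_src hs a r e, t13_src hs a r e, t1_src hs a r e, t2_src hs a r e, t5_src hs a r e]
  rfl
theorem t14_tgt {s : A → A → A → A → A → A → A} (hs : ∀ x y z, s x y x z y z = s y x z x z y) (a r e : A) : t14 s r a e r a = x10 s a r e := by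
  unfold t14
  rw [t0_tgt hs a r e, t12_tgt hs a r e, t13_tgt hs a r e, t1_tgt hs a r e, t2_tgt hs a r e, t5_tgt hs a r e]
  exact (hs _ _ _).symm
theorem t15_src {s : A → A → A → A → A → A → A} (hs : ∀ x y z, s x y x z y z = s y x z x z y) (a r e : A) : t15 s a r a e e = x14 s a r e := by
  unfold t15
  rw [t0_src hs a r e, t12_src hs a r e, t13_src hs a r e, t1_src hs a r e, t2_src hs a r e, t5_src hs a r e]
  rfl
theorem t15_tgt {s : A → A → A → A → A → A → A} (hs : ∀ x y z, s x y x z y z = s y x z x z y) (a r e : A) : t15 s r a e r a = x15 s a r e := by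
  unfold t15
  rw [t0_tgt hs a r e, t12_tgt hs a r e, t13_tgt hs a r e, t1_tgt hs a r e, t2_tgt hs a r e, t5_tgt hs a r e]
  rfl
theorem t16_src {s : A → A → A → A → A → A → A} (hs : ∀ x y z, s x y x z y z = s y x z x z y) (a r e : A) : t16 s a r a e e = x1 s a r e := by
  unfold t16
  rfl
theorem t16_tgt {s : A → A → A → A → A → A → A} (hs : ∀ x y z, s x y x z y z = s y x z x z y) (a r e : A) : t16 s r a e r a = x4 s a r e := by
  unfold t16
  rfl
theorem t17_src {s : A → A → A → A → A → A → A} (hs : ∀ x y z, s x y x z y z = s y x z x z y) (a r e : A) : t17 s a r a e e = x15 s a r e := by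
  unfold t17
  rw [t16_src hs a r e, t1_src hs a r e, t2_src hs a r e, t5_src hs a r e, t7_src hs a r e, t9_src hs a r e]
  exact (hs _ _ _).symm
theorem t17_tgt {s : A → A → A → A → A → A → A} (hs : ∀ x y z, s x y x z y z = s y x z x z y) (a r e : A) : t17 s r a e r a = x16 s a r e := by
  unfold t17
  rw [t16_tgt hs a r e, t1_tgt hs a r e, t2_tgt hs a r e, t5_tgt hs a r e, t7_tgt hs a r e, t9_tgt hs a r e]
  rfl
theorem t18_src {s : A → A → A → A → A → A → A} (hs : ∀ x y z, s x y x z y z = s y x z x z y) (a r e : A) : t18 s a r a e e = x17 s a r e := by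
  unfold t18
  rw [t10_src hs a r e, t11_src hs a r e, t14_src hs a r e, t15_src hs a r e, t17_src hs a r e, t6_src hs a r e]
  rfl
theorem t18_tgt {s : A → A → A → A → A → A → A} (hs : ∀ x y z, s x y x z y z = s y x z x z y) (a r e : A) : t18 s r a e r a = x18 s a r e := by
  unfold t18
  rw [t10_tgt hs a r e, t11_tgt hs a r e, t14_tgt hs a r e, t15_tgt hs a r e, t17_tgt hs a r e, t6_tgt hs a r e]
  rfl
theorem t19_src {s : A → A → A → A → A → A → A} (hs : ∀ x y z, s x y x z y z = s y x z x z y) (a r e : A) : t19 s a r a e e = x7 s a r e := by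
  unfold t19
  rw [t16_src hs a r e, t1_src hs a r e, t2_src hs a r e, t5_src hs a r e, t7_src hs a r e, t9_src hs a r e]
  exact (hs _ _ _).symm
theorem t19_tgt {s : A → A → A → A → A → A → A} (hs : ∀ x y z, s x y x z y z = s y x z x z y) (a r e : A) : t19 s r a e r a = x6 s a r e := by
  unfold t19
  rw [t16_tgt hs a r e, t1_tgt hs a r e, t2_tgt hs a r e, t5_tgt hs a r e, t7_tgt hs a r e, t9_tgt hs a r e]
  rfl
theorem t20_src {s : A → A → A → A → A → A → A} (hs : ∀ x y z, s x y x z y z = s y x z x z y) (a r e : A) : t20 s a r a e e = x9 s a r e := by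
  unfold t20
  rw [t0_src hs a r e, t12_src hs a r e, t1_src hs a r e, t2_src hs a r e, t4_src hs a r e, t5_src hs a r e]
  rfl
theorem t20_tgt {s : A → A → A → A → A → A → A} (hs : ∀ x y z, s x y x z y z = s y x z x z y) (a r e : A) : t20 s r a e r a = x7 s a r e := by
  unfold t20
  rw [t0_tgt hs a r e, t12_tgt hs a r e, t1_tgt hs a r e, t2_tgt hs a r e, t4_tgt hs a r e, t5_tgt hs a r e]
  rfl
theorem t21_src {s : A → A → A → A → A → A → A} (hs : ∀ x y z, s x y x z y z = s y x z x z y) (a r e : A) : t21 s a r a e e = x11 s a r e := by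
  unfold t21
  rw [t0_src hs a r e, t12_src hs a r e, t1_src hs a r e, t2_src hs a r e, t4_src hs a r e, t5_src hs a r e]
  rfl
theorem t21_tgt {s : A → A → A → A → A → A → A} (hs : ∀ x y z, s x y x z y z = s y x z x z y) (a r e : A) : t21 s r a e r a = x10 s a r e := by
  unfold t21
  rw [t0_tgt hs a r e, t12_tgt hs a r e, t1_tgt hs a r e, t2_tgt hs a r e, t4_tgt hs a r e, t5_tgt hs a r e]
  exact (hs _ _ _).symm
theorem t22_src {s : A → A → A → A → A → A → A} (hs : ∀ x y z, s x y x z y z = s y x z x z y) (a r e : A) : t22 s a r a e e = x2 s a r e := by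
  unfold t22
  exact (hs _ _ _).symm
theorem t22_tgt {s : A → A → A → A → A → A → A} (hs : ∀ x y z, s x y x z y z = s y x z x z y) (a r e : A) : t22 s r a e r a = x12 s a r e := by
  unfold t22
  rfl
theorem t23_src {s : A → A → A → A → A → A → A} (hs : ∀ x y z, s x y x z y z = s y x z x z y) (a r e : A) : t23 s a r a e e = x10 s a r e := by
  unfold t23
  rw [t1_src hs a r e, t22_src hs a r e, t2_src hs a r e, t5_src hs a r e, t7_src hs a r e, t8_src hs a r e]
  rfl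
theorem t23_tgt {s : A → A → A → A → A → A → A} (hs : ∀ x y z, s x y x z y z = s y x z x z y) (a r e : A) : t23 s r a e r a = x13 s a r e := by
  unfold t23
  rw [t1_tgt hs a r e, t22_tgt hs a r e, t2_tgt hs a r e, t5_tgt hs a r e, t7_tgt hs a r e, t8_tgt hs a r e]
  rfl
theorem t24_src {s : A → A → A → A → A → A → A} (hs : ∀ x y z, s x y x z y z = s y x z x z y) (a r e : A) : t24 s a r a e e = x15 s a r e := by
  unfold t24
  rw [t1_src hs a r e, t22_src hs a r e, t2_src hs a r e, t5_src hs a r e, t7_src hs a r e, t8_src hs a r e]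
  exact (hs _ _ _).symm
theorem t24_tgt {s : A → A → A → A → A → A → A} (hs : ∀ x y z, s x y x z y z = s y x z x z y) (a r e : A) : t24 s r a e r a = x14 s a r e := by
  unfold t24
  rw [t1_tgt hs a r e, t22_tgt hs a r e, t2_tgt hs a r e, t5_tgt hs a r e, t7_tgt hs a r e, t8_tgt hs a r e]
  rfl
theorem t25_src {s : A → A → A → A → A → A → A} (hs : ∀ x y z, s x y x z y z = s y x z x z y) (a r e : A) : t25 s a r a e e = x16 s a r e := by
  unfold t25
  rw [t0_src hs a r e, t1_src hs a r e, t2_src hs a r e, t3_src hs a r e, t4_src hs a r e, t5_src hs a r e]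
  rfl
theorem t25_tgt {s : A → A → A → A → A → A → A} (hs : ∀ x y z, s x y x z y z = s y x z x z y) (a r e : A) : t25 s r a e r a = x15 s a r e := by
  unfold t25
  rw [t0_tgt hs a r e, t1_tgt hs a r e, t2_tgt hs a r e, t3_tgt hs a r e, t4_tgt hs a r e, t5_tgt hs a r e]
  rfl
theorem t26_src {s : A → A → A → A → A → A → A} (hs : ∀ x y z, s x y x z y z = s y x z x z y) (a r e : A) : t26 s a r a e e = x18 s a r e := by
  unfold t26
  rw [t19_src hs a r e, t20_src hs a r e, t21_src hs a r e, t23_src hs a r e, t24_src hs a r e, t25_src hs a r e]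
  rfl
theorem t26_tgt {s : A → A → A → A → A → A → A} (hs : ∀ x y z, s x y x z y z = s y x z x z y) (a r e : A) : t26 s r a e r a = x17 s a r e := by
  unfold t26
  rw [t19_tgt hs a r e, t20_tgt hs a r e, t21_tgt hs a r e, t23_tgt hs a r e, t24_tgt hs a r e, t25_tgt hs a r e]
  rfl
theorem t27_src {s : A → A → A → A → A → A → A} (hs : ∀ x y z, s x y x z y z = s y x z x z y) (a r e : A) : t27 s a r a e e = x0 s a r e := by
  unfold t27
  rfl
theorem t27_tgt {s : A → A → A → A → A → A → A} (hs : ∀ x y z, s x y x z y z = s y x z x z y) (a r e : A) : t27 s r a e r a = x19 s a r e := by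
  unfold t27
  rfl
theorem t28_src {s : A → A → A → A → A → A → A} (hs : ∀ x y z, s x y x z y z = s y x z x z y) (a r e : A) : t28 s a r a e e = x2 s a r e := by
  unfold t28
  rfl
theorem t28_tgt {s : A → A → A → A → A → A → A} (hs : ∀ x y z, s x y x z y z = s y x z x z y) (a r e : A) : t28 s r a e r a = x20 s a r e := by
  unfold t28
  rfl
theorem t29_src {s : A → A → A → A → A → A → A} (hs : ∀ x y z, s x y x z y z = s y x z x z y) (a r e : A) : t29 s a r a e e = x3 s a r e := by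
  unfold t29
  rfl
theorem t29_tgt {s : A → A → A → A → A → A → A} (hs : ∀ x y z, s x y x z y z = s y x z x z y) (a r e : A) : t29 s r a e r a = x19 s a r e := by
  unfold t29
  rfl
theorem t30_src {s : A → A → A → A → A → A → A} (hs : ∀ x y z, s x y x z y z = s y x z x z y) (a r e : A) : t30 s a r a e e = x4 s a r e := by
  unfold t30
  rfl
theorem t30_tgt {s : A → A → A → A → A → A → A} (hs : ∀ x y z, s x y x z y z = s y x z x z y) (a r e : A) : t30 s r a e r a = x21 s a r e := by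
  unfold t30
  rfl
theorem t31_src {s : A → A → A → A → A → A → A} (hs : ∀ x y z, s x y x z y z = s y x z x z y) (a r e : A) : t31 s a r a e e = x5 s a r e := by
  unfold t31
  rfl
theorem t31_tgt {s : A → A → A → A → A → A → A} (hs : ∀ x y z, s x y x z y z = s y x z x z y) (a r e : A) : t31 s r a e r a = x20 s a r e := by
  unfold t31
  rfl
theorem t32_src {s : A → A → A → A → A → A → A} (hs : ∀ x y z, s x y x z y z = s y x z x z y) (a r e : A) : t32 s a r a e e = x1 s a r e := by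
  unfold t32
  exact (hs _ _ _).symm
theorem t32_tgt {s : A → A → A → A → A → A → A} (hs : ∀ x y z, s x y x z y z = s y x z x z y) (a r e : A) : t32 s r a e r a = x21 s a r e := by
  unfold t32
  rfl
theorem t33_src {s : A → A → A → A → A → A → A} (hs : ∀ x y z, s x y x z y z = s y x z x z y) (a r e : A) : t33 s a r a e e = x6 s a r e := by
  unfold t33
  rw [t27_src hs a r e, t28_src hs a r e, t29_src hs a r e, t30_src hs a r e, t31_src hs a r e, t32_src hs a r e]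
  rfl
theorem t33_tgt {s : A → A → A → A → A → A → A} (hs : ∀ x y z, s x y x z y z = s y x z x z y) (a r e : A) : t33 s r a e r a = x22 s a r e := by
  unfold t33
  rw [t27_tgt hs a r e, t28_tgt hs a r e, t29_tgt hs a r e, t30_tgt hs a r e, t31_tgt hs a r e, t32_tgt hs a r e]
  rfl
theorem t34_src {s : A → A → A → A → A → A → A} (hs : ∀ x y z, s x y x z y z = s y x z x z y) (a r e : A) : t34 s a r a e e = x3 s a r e := by
  unfold t34
  rfl
theorem t34_tgt {s : A → A → A → A → A → A → A} (hs : ∀ x y z, s x y x z y z = s y x z x z y) (a r e : A) : t34 s r a e r a = x23 s a r e := by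
  unfold t34
  rfl
theorem t35_src {s : A → A → A → A → A → A → A} (hs : ∀ x y z, s x y x z y z = s y x z x z y) (a r e : A) : t35 s a r a e e = x2 s a r e := by
  unfold t35
  rfl
theorem t35_tgt {s : A → A → A → A → A → A → A} (hs : ∀ x y z, s x y x z y z = s y x z x z y) (a r e : A) : t35 s r a e r a = x24 s a r e := by
  unfold t35
  rfl
theorem t36_src {s : A → A → A → A → A → A → A} (hs : ∀ x y z, s x y x z y z = s y x z x z y) (a r e : A) : t36 s a r a e e = x7 s a r e := by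
  unfold t36
  rw [t32_src hs a r e, t34_src hs a r e, t35_src hs a r e]
  rfl
theorem t36_tgt {s : A → A → A → A → A → A → A} (hs : ∀ x y z, s x y x z y z = s y x z x z y) (a r e : A) : t36 s r a e r a = x25 s a r e := by
  unfold t36
  rw [t32_tgt hs a r e, t34_tgt hs a r e, t35_tgt hs a r e]
  rfl
theorem t37_src {s : A → A → A → A → A → A → A} (hs : ∀ x y z, s x y x z y z = s y x z x z y) (a r e : A) : t37 s a r a e e = x1 s a r e := by
  unfold t37
  exact (hs _ _ _).symm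
theorem t37_tgt {s : A → A → A → A → A → A → A} (hs : ∀ x y z, s x y x z y z = s y x z x z y) (a r e : A) : t37 s r a e r a = x26 s a r e := by
  unfold t37
  rfl
theorem t38_src {s : A → A → A → A → A → A → A} (hs : ∀ x y z, s x y x z y z = s y x z x z y) (a r e : A) : t38 s a r a e e = x10 s a r e := by
  unfold t38
  rw [t28_src hs a r e, t29_src hs a r e, t37_src hs a r e]
  rfl
theorem t38_tgt {s : A → A → A → A → A → A → A} (hs : ∀ x y z, s x y x z y z = s y x z x z y) (a r e : A) : t38 s r a e r a = x27 s a r e := by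
  unfold t38
  rw [t28_tgt hs a r e, t29_tgt hs a r e, t37_tgt hs a r e]
  rfl
theorem t39_src {s : A → A → A → A → A → A → A} (hs : ∀ x y z, s x y x z y z = s y x z x z y) (a r e : A) : t39 s a r a e e = x8 s a r e := by
  unfold t39
  rfl
theorem t39_tgt {s : A → A → A → A → A → A → A} (hs : ∀ x y z, s x y x z y z = s y x z x z y) (a r e : A) : t39 s r a e r a = x21 s a r e := by
  unfold t39
  rfl
theorem t40_src {s : A → A → A → A → A → A → A} (hs : ∀ x y z, s x y x z y z = s y x z x z y) (a r e : A) : t40 s a r a e e = x12 s a r e := by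
  unfold t40
  rfl
theorem t40_tgt {s : A → A → A → A → A → A → A} (hs : ∀ x y z, s x y x z y z = s y x z x z y) (a r e : A) : t40 s r a e r a = x24 s a r e := by
  unfold t40
  rfl
theorem t41_src {s : A → A → A → A → A → A → A} (hs : ∀ x y z, s x y x z y z = s y x z x z y) (a r e : A) : t41 s a r a e e = x0 s a r e := by
  unfold t41
  rfl
theorem t41_tgt {s : A → A → A → A → A → A → A} (hs : ∀ x y z, s x y x z y z = s y x z x z y) (a r e : A) : t41 s r a e r a = x23 s a r e := by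
  unfold t41
  rfl
theorem t42_src {s : A → A → A → A → A → A → A} (hs : ∀ x y z, s x y x z y z = s y x z x z y) (a r e : A) : t42 s a r a e e = x13 s a r e := by
  unfold t42
  rw [t32_src hs a r e, t34_src hs a r e, t35_src hs a r e, t39_src hs a r e, t40_src hs a r e, t41_src hs a r e]
  rfl
theorem t42_tgt {s : A → A → A → A → A → A → A} (hs : ∀ x y z, s x y x z y z = s y x z x z y) (a r e : A) : t42 s r a e r a = x25 s a r e := by
  unfold t42
  rw [t32_tgt hs a r e, t34_tgt hs a r e, t35_tgt hs a r e, t39_tgt hs a r e, t40_tgt hs a r e, t41_tgt hs a r e]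
  exact (hs _ _ _).symm
theorem t43_src {s : A → A → A → A → A → A → A} (hs : ∀ x y z, s x y x z y z = s y x z x z y) (a r e : A) : t43 s a r a e e = x12 s a r e := by
  unfold t43
  rfl
theorem t43_tgt {s : A → A → A → A → A → A → A} (hs : ∀ x y z, s x y x z y z = s y x z x z y) (a r e : A) : t43 s r a e r a = x20 s a r e := by
  unfold t43
  rfl
theorem t44_src {s : A → A → A → A → A → A → A} (hs : ∀ x y z, s x y x z y z = s y x z x z y) (a r e : A) : t44 s a r a e e = x8 s a r e := by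
  unfold t44
  rfl
theorem t44_tgt {s : A → A → A → A → A → A → A} (hs : ∀ x y z, s x y x z y z = s y x z x z y) (a r e : A) : t44 s r a e r a = x26 s a r e := by
  unfold t44
  rfl
theorem t45_src {s : A → A → A → A → A → A → A} (hs : ∀ x y z, s x y x z y z = s y x z x z y) (a r e : A) : t45 s a r a e e = x14 s a r e := by
  unfold t45
  rw [t27_src hs a r e, t28_src hs a r e, t29_src hs a r e, t37_src hs a r e, t43_src hs a r e, t44_src hs a r e]
  rfl
theorem t45_tgt {s : A → A → A → A → A → A → A} (hs : ∀ x y z, s x y x z y z = s y x z x z y) (a r e : A) : t45 s r a e r a = x27 s a r e := by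
  unfold t45
  rw [t27_tgt hs a r e, t28_tgt hs a r e, t29_tgt hs a r e, t37_tgt hs a r e, t43_tgt hs a r e, t44_tgt hs a r e]
  rfl
theorem t46_src {s : A → A → A → A → A → A → A} (hs : ∀ x y z, s x y x z y z = s y x z x z y) (a r e : A) : t46 s a r a e e = x15 s a r e := by
  unfold t46
  rw [t28_src hs a r e, t29_src hs a r e, t32_src hs a r e]
  rfl
theorem t46_tgt {s : A → A → A → A → A → A → A} (hs : ∀ x y z, s x y x z y z = s y x z x z y) (a r e : A) : t46 s r a e r a = x22 s a r e := by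
  unfold t46
  rw [t28_tgt hs a r e, t29_tgt hs a r e, t32_tgt hs a r e]
  rfl
theorem t47_src {s : A → A → A → A → A → A → A} (hs : ∀ x y z, s x y x z y z = s y x z x z y) (a r e : A) : t47 s a r a e e = x17 s a r e := by
  unfold t47
  rw [t33_src hs a r e, t36_src hs a r e, t38_src hs a r e, t42_src hs a r e, t45_src hs a r e, t46_src hs a r e]
  rfl
theorem t47_tgt {s : A → A → A → A → A → A → A} (hs : ∀ x y z, s x y x z y z = s y x z x z y) (a r e : A) : t47 s r a e r a = x28 s a r e := by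
  unfold t47
  rw [t33_tgt hs a r e, t36_tgt hs a r e, t38_tgt hs a r e, t42_tgt hs a r e, t45_tgt hs a r e, t46_tgt hs a r e]
  exact (hs _ _ _).symm
theorem t48_src {s : A → A → A → A → A → A → A} (hs : ∀ x y z, s x y x z y z = s y x z x z y) (a r e : A) : t48 s a r a e e = x23 s a r e := by
  unfold t48
  rfl
theorem t48_tgt {s : A → A → A → A → A → A → A} (hs : ∀ x y z, s x y x z y z = s y x z x z y) (a r e : A) : t48 s r a e r a = x0 s a r e := by
  unfold t48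
  rfl
theorem t49_src {s : A → A → A → A → A → A → A} (hs : ∀ x y z, s x y x z y z = s y x z x z y) (a r e : A) : t49 s a r a e e = x21 s a r e := by
  unfold t49
  rfl
theorem t49_tgt {s : A → A → A → A → A → A → A} (hs : ∀ x y z, s x y x z y z = s y x z x z y) (a r e : A) : t49 s r a e r a = x2 s a r e := by
  unfold t49
  rfl
theorem t50_src {s : A → A → A → A → A → A → A} (hs : ∀ x y z, s x y x z y z = s y x z x z y) (a r e : A) : t50 s a r a e e = x24 s a r e := by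
  unfold t50
  rfl
theorem t50_tgt {s : A → A → A → A → A → A → A} (hs : ∀ x y z, s x y x z y z = s y x z x z y) (a r e : A) : t50 s r a e r a = x3 s a r e := by
  unfold t50
  exact (hs _ _ _).symm
theorem t51_src {s : A → A → A → A → A → A → A} (hs : ∀ x y z, s x y x z y z = s y x z x z y) (a r e : A) : t51 s a r a e e = x21 s a r e := by
  unfold t51
  rfl
theorem t51_tgt {s : A → A → A → A → A → A → A} (hs : ∀ x y z, s x y x z y z = s y x z x z y) (a r e : A) : t51 s r a e r a = x4 s a r e := by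
  unfold t51
  rfl
theorem t52_src {s : A → A → A → A → A → A → A} (hs : ∀ x y z, s x y x z y z = s y x z x z y) (a r e : A) : t52 s a r a e e = x24 s a r e := by
  unfold t52
  rfl
theorem t52_tgt {s : A → A → A → A → A → A → A} (hs : ∀ x y z, s x y x z y z = s y x z x z y) (a r e : A) : t52 s r a e r a = x5 s a r e := by
  unfold t52
  rfl
theorem t53_src {s : A → A → A → A → A → A → A} (hs : ∀ x y z, s x y x z y z = s y x z x z y) (a r e : A) : t53 s a r a e e = x23 s a r e := by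
  unfold t53
  rfl
theorem t53_tgt {s : A → A → A → A → A → A → A} (hs : ∀ x y z, s x y x z y z = s y x z x z y) (a r e : A) : t53 s r a e r a = x1 s a r e := by
  unfold t53
  exact (hs _ _ _).symm
theorem t54_src {s : A → A → A → A → A → A → A} (hs : ∀ x y z, s x y x z y z = s y x z x z y) (a r e : A) : t54 s a r a e e = x25 s a r e := by
  unfold t54
  rw [t48_src hs a r e, t49_src hs a r e, t50_src hs a r e, t51_src hs a r e, t52_src hs a r e, t53_src hs a r e]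
  exact (hs _ _ _).symm
theorem t54_tgt {s : A → A → A → A → A → A → A} (hs : ∀ x y z, s x y x z y z = s y x z x z y) (a r e : A) : t54 s r a e r a = x6 s a r e := by
  unfold t54
  rw [t48_tgt hs a r e, t49_tgt hs a r e, t50_tgt hs a r e, t51_tgt hs a r e, t52_tgt hs a r e, t53_tgt hs a r e]
  rfl
theorem t55_src {s : A → A → A → A → A → A → A} (hs : ∀ x y z, s x y x z y z = s y x z x z y) (a r e : A) : t55 s a r a e e = x19 s a r e := by
  unfold t55
  rfl
theorem t55_tgt {s : A → A → A → A → A → A → A} (hs : ∀ x y z, s x y x z y z = s y x z x z y) (a r e : A) : t55 s r a e r a = x1 s a r e := by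
  unfold t55
  exact (hs _ _ _).symm
theorem t56_src {s : A → A → A → A → A → A → A} (hs : ∀ x y z, s x y x z y z = s y x z x z y) (a r e : A) : t56 s a r a e e = x20 s a r e := by
  unfold t56
  rfl
theorem t56_tgt {s : A → A → A → A → A → A → A} (hs : ∀ x y z, s x y x z y z = s y x z x z y) (a r e : A) : t56 s r a e r a = x3 s a r e := by
  unfold t56
  exact (hs _ _ _).symm
theorem t57_src {s : A → A → A → A → A → A → A} (hs : ∀ x y z, s x y x z y z = s y x z x z y) (a r e : A) : t57 s a r a e e = x22 s a r e := by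
  unfold t57
  rw [t49_src hs a r e, t55_src hs a r e, t56_src hs a r e]
  rfl
theorem t57_tgt {s : A → A → A → A → A → A → A} (hs : ∀ x y z, s x y x z y z = s y x z x z y) (a r e : A) : t57 s r a e r a = x7 s a r e := by
  unfold t57
  rw [t49_tgt hs a r e, t55_tgt hs a r e, t56_tgt hs a r e]
  rfl
theorem t58_src {s : A → A → A → A → A → A → A} (hs : ∀ x y z, s x y x z y z = s y x z x z y) (a r e : A) : t58 s a r a e e = x25 s a r e := by
  unfold t58
  rw [t49_src hs a r e, t50_src hs a r e, t53_src hs a r e]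
  rfl
theorem t58_tgt {s : A → A → A → A → A → A → A} (hs : ∀ x y z, s x y x z y z = s y x z x z y) (a r e : A) : t58 s r a e r a = x10 s a r e := by
  unfold t58
  rw [t49_tgt hs a r e, t50_tgt hs a r e, t53_tgt hs a r e]
  rfl
theorem t59_src {s : A → A → A → A → A → A → A} (hs : ∀ x y z, s x y x z y z = s y x z x z y) (a r e : A) : t59 s a r a e e = x26 s a r e := by
  unfold t59
  rfl
theorem t59_tgt {s : A → A → A → A → A → A → A} (hs : ∀ x y z, s x y x z y z = s y x z x z y) (a r e : A) : t59 s r a e r a = x8 s a r e := by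
  unfold t59
  rfl
theorem t60_src {s : A → A → A → A → A → A → A} (hs : ∀ x y z, s x y x z y z = s y x z x z y) (a r e : A) : t60 s a r a e e = x20 s a r e := by
  unfold t60
  rfl
theorem t60_tgt {s : A → A → A → A → A → A → A} (hs : ∀ x y z, s x y x z y z = s y x z x z y) (a r e : A) : t60 s r a e r a = x12 s a r e := by
  unfold t60
  rfl
theorem t61_src {s : A → A → A → A → A → A → A} (hs : ∀ x y z, s x y x z y z = s y x z x z y) (a r e : A) : t61 s a r a e e = x26 s a r e := by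
  unfold t61
  rfl
theorem t61_tgt {s : A → A → A → A → A → A → A} (hs : ∀ x y z, s x y x z y z = s y x z x z y) (a r e : A) : t61 s r a e r a = x2 s a r e := by
  unfold t61
  rfl
theorem t62_src {s : A → A → A → A → A → A → A} (hs : ∀ x y z, s x y x z y z = s y x z x z y) (a r e : A) : t62 s a r a e e = x19 s a r e := by
  unfold t62
  rfl
theorem t62_tgt {s : A → A → A → A → A → A → A} (hs : ∀ x y z, s x y x z y z = s y x z x z y) (a r e : A) : t62 s r a e r a = x0 s a r e := by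
  unfold t62
  rfl
theorem t63_src {s : A → A → A → A → A → A → A} (hs : ∀ x y z, s x y x z y z = s y x z x z y) (a r e : A) : t63 s a r a e e = x27 s a r e := by
  unfold t63
  rw [t55_src hs a r e, t56_src hs a r e, t59_src hs a r e, t60_src hs a r e, t61_src hs a r e, t62_src hs a r e]
  rfl
theorem t63_tgt {s : A → A → A → A → A → A → A} (hs : ∀ x y z, s x y x z y z = s y x z x z y) (a r e : A) : t63 s r a e r a = x13 s a r e := by
  unfold t63
  rw [t55_tgt hs a r e, t56_tgt hs a r e, t59_tgt hs a r e, t60_tgt hs a r e, t61_tgt hs a r e, t62_tgt hs a r e]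
  rfl
theorem t64_src {s : A → A → A → A → A → A → A} (hs : ∀ x y z, s x y x z y z = s y x z x z y) (a r e : A) : t64 s a r a e e = x21 s a r e := by
  unfold t64
  rfl
theorem t64_tgt {s : A → A → A → A → A → A → A} (hs : ∀ x y z, s x y x z y z = s y x z x z y) (a r e : A) : t64 s r a e r a = x8 s a r e := by
  unfold t64
  rfl
theorem t65_src {s : A → A → A → A → A → A → A} (hs : ∀ x y z, s x y x z y z = s y x z x z y) (a r e : A) : t65 s a r a e e = x22 s a r e := by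
  unfold t65
  rw [t49_src hs a r e, t55_src hs a r e, t56_src hs a r e, t60_src hs a r e, t62_src hs a r e, t64_src hs a r e]
  exact (hs _ _ _).symm
theorem t65_tgt {s : A → A → A → A → A → A → A} (hs : ∀ x y z, s x y x z y z = s y x z x z y) (a r e : A) : t65 s r a e r a = x14 s a r e := by
  unfold t65
  rw [t49_tgt hs a r e, t55_tgt hs a r e, t56_tgt hs a r e, t60_tgt hs a r e, t62_tgt hs a r e, t64_tgt hs a r e]
  rfl
theorem t66_src {s : A → A → A → A → A → A → A} (hs : ∀ x y z, s x y x z y z = s y x z x z y) (a r e : A) : t66 s a r a e e = x27 s a r e := by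
  unfold t66
  rw [t55_src hs a r e, t56_src hs a r e, t61_src hs a r e]
  rfl
theorem t66_tgt {s : A → A → A → A → A → A → A} (hs : ∀ x y z, s x y x z y z = s y x z x z y) (a r e : A) : t66 s r a e r a = x15 s a r e := by
  unfold t66
  rw [t55_tgt hs a r e, t56_tgt hs a r e, t61_tgt hs a r e]
  rfl
theorem t67_src {s : A → A → A → A → A → A → A} (hs : ∀ x y z, s x y x z y z = s y x z x z y) (a r e : A) : t67 s a r a e e = x28 s a r e := by
  unfold t67
  rw [t54_src hs a r e, t57_src hs a r e, t58_src hs a r e, t63_src hs a r e, t65_src hs a r e, t66_src hs a r e]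
  rfl
theorem t67_tgt {s : A → A → A → A → A → A → A} (hs : ∀ x y z, s x y x z y z = s y x z x z y) (a r e : A) : t67 s r a e r a = x17 s a r e := by
  unfold t67
  rw [t54_tgt hs a r e, t57_tgt hs a r e, t58_tgt hs a r e, t63_tgt hs a r e, t65_tgt hs a r e, t66_tgt hs a r e]
  rfl
theorem t68_src {s : A → A → A → A → A → A → A} (hs : ∀ x y z, s x y x z y z = s y x z x z y) (a r e : A) : t68 s a r a e e = x9 s a r e := by
  unfold t68
  rw [t27_src hs a r e, t28_src hs a r e, t29_src hs a r e, t31_src hs a r e, t32_src hs a r e, t39_src hs a r e]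
  rfl
theorem t68_tgt {s : A → A → A → A → A → A → A} (hs : ∀ x y z, s x y x z y z = s y x z x z y) (a r e : A) : t68 s r a e r a = x22 s a r e := by
  unfold t68
  rw [t27_tgt hs a r e, t28_tgt hs a r e, t29_tgt hs a r e, t31_tgt hs a r e, t32_tgt hs a r e, t39_tgt hs a r e]
  rfl
theorem t69_src {s : A → A → A → A → A → A → A} (hs : ∀ x y z, s x y x z y z = s y x z x z y) (a r e : A) : t69 s a r a e e = x5 s a r e := by
  unfold t69
  rfl
theorem t69_tgt {s : A → A → A → A → A → A → A} (hs : ∀ x y z, s x y x z y z = s y x z x z y) (a r e : A) : t69 s r a e r a = x24 s a r e := by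
  unfold t69
  rfl
theorem t70_src {s : A → A → A → A → A → A → A} (hs : ∀ x y z, s x y x z y z = s y x z x z y) (a r e : A) : t70 s a r a e e = x11 s a r e := by
  unfold t70
  rw [t32_src hs a r e, t34_src hs a r e, t35_src hs a r e, t39_src hs a r e, t41_src hs a r e, t69_src hs a r e]
  rfl
theorem t70_tgt {s : A → A → A → A → A → A → A} (hs : ∀ x y z, s x y x z y z = s y x z x z y) (a r e : A) : t70 s r a e r a = x25 s a r e := by
  unfold t70
  rw [t32_tgt hs a r e, t34_tgt hs a r e, t35_tgt hs a r e, t39_tgt hs a r e, t41_tgt hs a r e, t69_tgt hs a r e]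
  exact (hs _ _ _).symm
theorem t71_src {s : A → A → A → A → A → A → A} (hs : ∀ x y z, s x y x z y z = s y x z x z y) (a r e : A) : t71 s a r a e e = x4 s a r e := by
  unfold t71
  rfl
theorem t71_tgt {s : A → A → A → A → A → A → A} (hs : ∀ x y z, s x y x z y z = s y x z x z y) (a r e : A) : t71 s r a e r a = x26 s a r e := by
  unfold t71
  rfl
theorem t72_src {s : A → A → A → A → A → A → A} (hs : ∀ x y z, s x y x z y z = s y x z x z y) (a r e : A) : t72 s a r a e e = x16 s a r e := by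
  unfold t72
  rw [t27_src hs a r e, t28_src hs a r e, t29_src hs a r e, t31_src hs a r e, t37_src hs a r e, t71_src hs a r e]
  rfl
theorem t72_tgt {s : A → A → A → A → A → A → A} (hs : ∀ x y z, s x y x z y z = s y x z x z y) (a r e : A) : t72 s r a e r a = x27 s a r e := by
  unfold t72
  rw [t27_tgt hs a r e, t28_tgt hs a r e, t29_tgt hs a r e, t31_tgt hs a r e, t37_tgt hs a r e, t71_tgt hs a r e]
  rfl
theorem t73_src {s : A → A → A → A → A → A → A} (hs : ∀ x y z, s x y x z y z = s y x z x z y) (a r e : A) : t73 s a r a e e = x18 s a r e := by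
  unfold t73
  rw [t36_src hs a r e, t38_src hs a r e, t46_src hs a r e, t68_src hs a r e, t70_src hs a r e, t72_src hs a r e]
  rfl
theorem t73_tgt {s : A → A → A → A → A → A → A} (hs : ∀ x y z, s x y x z y z = s y x z x z y) (a r e : A) : t73 s r a e r a = x28 s a r e := by
  unfold t73
  rw [t36_tgt hs a r e, t38_tgt hs a r e, t46_tgt hs a r e, t68_tgt hs a r e, t70_tgt hs a r e, t72_tgt hs a r e]
  rfl
theorem t74_src {s : A → A → A → A → A → A → A} (hs : ∀ x y z, s x y x z y z = s y x z x z y) (a r e : A) : t74 s a r a e e = x25 s a r e := by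
  unfold t74
  rw [t48_src hs a r e, t49_src hs a r e, t50_src hs a r e, t52_src hs a r e, t53_src hs a r e, t64_src hs a r e]
  exact (hs _ _ _).symm
theorem t74_tgt {s : A → A → A → A → A → A → A} (hs : ∀ x y z, s x y x z y z = s y x z x z y) (a r e : A) : t74 s r a e r a = x9 s a r e := by
  unfold t74
  rw [t48_tgt hs a r e, t49_tgt hs a r e, t50_tgt hs a r e, t52_tgt hs a r e, t53_tgt hs a r e, t64_tgt hs a r e]
  rfl
theorem t75_src {s : A → A → A → A → A → A → A} (hs : ∀ x y z, s x y x z y z = s y x z x z y) (a r e : A) : t75 s a r a e e = x20 s a r e := by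
  unfold t75
  rfl
theorem t75_tgt {s : A → A → A → A → A → A → A} (hs : ∀ x y z, s x y x z y z = s y x z x z y) (a r e : A) : t75 s r a e r a = x5 s a r e := by
  unfold t75
  rfl
theorem t76_src {s : A → A → A → A → A → A → A} (hs : ∀ x y z, s x y x z y z = s y x z x z y) (a r e : A) : t76 s a r a e e = x27 s a r e := by
  unfold t76
  rw [t55_src hs a r e, t56_src hs a r e, t59_src hs a r e, t61_src hs a r e, t62_src hs a r e, t75_src hs a r e]
  rfl
theorem t76_tgt {s : A → A → A → A → A → A → A} (hs : ∀ x y z, s x y x z y z = s y x z x z y) (a r e : A) : t76 s r a e r a = x11 s a r e := by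
  unfold t76
  rw [t55_tgt hs a r e, t56_tgt hs a r e, t59_tgt hs a r e, t61_tgt hs a r e, t62_tgt hs a r e, t75_tgt hs a r e]
  rfl
theorem t77_src {s : A → A → A → A → A → A → A} (hs : ∀ x y z, s x y x z y z = s y x z x z y) (a r e : A) : t77 s a r a e e = x22 s a r e := by
  unfold t77
  rw [t49_src hs a r e, t51_src hs a r e, t55_src hs a r e, t56_src hs a r e, t62_src hs a r e, t75_src hs a r e]
  exact (hs _ _ _).symm
theorem t77_tgt {s : A → A → A → A → A → A → A} (hs : ∀ x y z, s x y x z y z = s y x z x z y) (a r e : A) : t77 s r a e r a = x16 s a r e := by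
  unfold t77
  rw [t49_tgt hs a r e, t51_tgt hs a r e, t55_tgt hs a r e, t56_tgt hs a r e, t62_tgt hs a r e, t75_tgt hs a r e]
  rfl
theorem t78_src {s : A → A → A → A → A → A → A} (hs : ∀ x y z, s x y x z y z = s y x z x z y) (a r e : A) : t78 s a r a e e = x28 s a r e := by
  unfold t78
  rw [t57_src hs a r e, t58_src hs a r e, t66_src hs a r e, t74_src hs a r e, t76_src hs a r e, t77_src hs a r e]
  exact (hs _ _ _).symm
theorem t78_tgt {s : A → A → A → A → A → A → A} (hs : ∀ x y z, s x y x z y z = s y x z x z y) (a r e : A) : t78 s r a e r a = x18 s a r e := by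
  unfold t78
  rw [t57_tgt hs a r e, t58_tgt hs a r e, t66_tgt hs a r e, t74_tgt hs a r e, t76_tgt hs a r e, t77_tgt hs a r e]
  rfl
theorem t79_src {s : A → A → A → A → A → A → A} (hs : ∀ x y z, s x y x z y z = s y x z x z y) (a r e : A) : t79 s a r a e e = x29 s a r e := by
  unfold t79
  rw [t18_src hs a r e, t26_src hs a r e, t47_src hs a r e, t67_src hs a r e, t73_src hs a r e, t78_src hs a r e]
  rfl
theorem t79_tgt {s : A → A → A → A → A → A → A} (hs : ∀ x y z, s x y x z y z = s y x z x z y) (a r e : A) : t79 s r a e r a = x29 s a r e := by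
  unfold t79
  rw [t18_tgt hs a r e, t26_tgt hs a r e, t47_tgt hs a r e, t67_tgt hs a r e, t73_tgt hs a r e, t78_tgt hs a r e]
  exact (hs _ _ _).symm
-- final t79 x29

end body

section term

variable {A ι : Type*} {ar : ι → ℕ} {op : (i : ι) → (Fin (ar i) → A) → A}

theorem t0_term {S : (Fin 6 → A) → A} (hS : IsTerm op 6 S) :
    IsTerm op 5 (fun v => t0 (cur S) (v 0) (v 1) (v 2) (v 3) (v 4)) :=
  comp6 hS (IsTerm.proj 3) (IsTerm.proj 2) (IsTerm.proj 0) (IsTerm.proj 1) (IsTerm.proj 2) (IsTerm.proj 4)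

theorem t1_term {S : (Fin 6 → A) → A} (hS : IsTerm op 6 S) :
    IsTerm op 5 (fun v => t1 (cur S) (v 0) (v 1) (v 2) (v 3) (v 4)) :=
  comp6 hS (IsTerm.proj 2) (IsTerm.proj 1) (IsTerm.proj 2) (IsTerm.proj 3) (IsTerm.proj 1) (IsTerm.proj 3)

theorem t2_term {S : (Fin 6 → A) → A} (hS : IsTerm op 6 S) :
    IsTerm op 5 (fun v => t2 (cur S) (v 0) (v 1) (v 2) (v 3) (v 4)) :=
  comp6 hS (IsTerm.proj 3) (IsTerm.proj 2) (IsTerm.proj 3) (IsTerm.proj 1) (IsTerm.proj 2) (IsTerm.proj 1)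

theorem t3_term {S : (Fin 6 → A) → A} (hS : IsTerm op 6 S) :
    IsTerm op 5 (fun v => t3 (cur S) (v 0) (v 1) (v 2) (v 3) (v 4)) :=
  comp6 hS (IsTerm.proj 0) (IsTerm.proj 1) (IsTerm.proj 2) (IsTerm.proj 1) (IsTerm.proj 2) (IsTerm.proj 3)

theorem t4_term {S : (Fin 6 → A) → A} (hS : IsTerm op 6 S) :
    IsTerm op 5 (fun v => t4 (cur S) (v 0) (v 1) (v 2) (v 3) (v 4)) :=
  comp6 hS (IsTerm.proj 2) (IsTerm.proj 4) (IsTerm.proj 2) (IsTerm.proj 3) (IsTerm.proj 1) (IsTerm.proj 0)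

theorem t5_term {S : (Fin 6 → A) → A} (hS : IsTerm op 6 S) :
    IsTerm op 5 (fun v => t5 (cur S) (v 0) (v 1) (v 2) (v 3) (v 4)) :=
  comp6 hS (IsTerm.proj 1) (IsTerm.proj 3) (IsTerm.proj 1) (IsTerm.proj 2) (IsTerm.proj 3) (IsTerm.proj 2)

theorem t6_term {S : (Fin 6 → A) → A} (hS : IsTerm op 6 S) :
    IsTerm op 5 (fun v => t6 (cur S) (v 0) (v 1) (v 2) (v 3) (v 4)) :=
  comp6 hS (t0_term hS) (t1_term hS) (t2_term hS) (t3_term hS) (t4_term hS) (t5_term hS)

theorem t7_term {S : (Fin 6 → A) → A} (hS : IsTerm op 6 S) :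
    IsTerm op 5 (fun v => t7 (cur S) (v 0) (v 1) (v 2) (v 3) (v 4)) :=
  comp6 hS (IsTerm.proj 2) (IsTerm.proj 4) (IsTerm.proj 1) (IsTerm.proj 3) (IsTerm.proj 1) (IsTerm.proj 2)

theorem t8_term {S : (Fin 6 → A) → A} (hS : IsTerm op 6 S) :
    IsTerm op 5 (fun v => t8 (cur S) (v 0) (v 1) (v 2) (v 3) (v 4)) :=
  comp6 hS (IsTerm.proj 1) (IsTerm.proj 3) (IsTerm.proj 1) (IsTerm.proj 2) (IsTerm.proj 4) (IsTerm.proj 2)

theorem t9_term {S : (Fin 6 → A) → A} (hS : IsTerm op 6 S) :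
    IsTerm op 5 (fun v => t9 (cur S) (v 0) (v 1) (v 2) (v 3) (v 4)) :=
  comp6 hS (IsTerm.proj 1) (IsTerm.proj 2) (IsTerm.proj 4) (IsTerm.proj 2) (IsTerm.proj 3) (IsTerm.proj 1)

theorem t10_term {S : (Fin 6 → A) → A} (hS : IsTerm op 6 S) :
    IsTerm op 5 (fun v => t10 (cur S) (v 0) (v 1) (v 2) (v 3) (v 4)) :=
  comp6 hS (t7_term hS) (t5_term hS) (t1_term hS) (t8_term hS) (t9_term hS) (t2_term hS)

theorem t11_term {S : (Fin 6 → A) → A} (hS : IsTerm op 6 S) :
    IsTerm op 5 (fun v => t11 (cur S) (v 0) (v 1) (v 2) (v 3) (v 4)) :=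
  comp6 hS (t1_term hS) (t8_term hS) (t9_term hS) (t2_term hS) (t5_term hS) (t7_term hS)

theorem t12_term {S : (Fin 6 → A) → A} (hS : IsTerm op 6 S) :
    IsTerm op 5 (fun v => t12 (cur S) (v 0) (v 1) (v 2) (v 3) (v 4)) :=
  comp6 hS (IsTerm.proj 0) (IsTerm.proj 1) (IsTerm.proj 2) (IsTerm.proj 4) (IsTerm.proj 2) (IsTerm.proj 3)

theorem t13_term {S : (Fin 6 → A) → A} (hS : IsTerm op 6 S) :
    IsTerm op 5 (fun v => t13 (cur S) (v 0) (v 1) (v 2) (v 3) (v 4)) :=
  comp6 hS (IsTerm.proj 2) (IsTerm.proj 1) (IsTerm.proj 2) (IsTerm.proj 3) (IsTerm.proj 1) (IsTerm.proj 0)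

theorem t14_term {S : (Fin 6 → A) → A} (hS : IsTerm op 6 S) :
    IsTerm op 5 (fun v => t14 (cur S) (v 0) (v 1) (v 2) (v 3) (v 4)) :=
  comp6 hS (t2_term hS) (t12_term hS) (t13_term hS) (t5_term hS) (t1_term hS) (t0_term hS)

theorem t15_term {S : (Fin 6 → A) → A} (hS : IsTerm op 6 S) :
    IsTerm op 5 (fun v => t15 (cur S) (v 0) (v 1) (v 2) (v 3) (v 4)) :=
  comp6 hS (t13_term hS) (t5_term hS) (t1_term hS) (t0_term hS) (t12_term hS) (t2_term hS)

theorem t16_term {S : (Fin 6 → A) → A} (hS : IsTerm op 6 S) :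
    IsTerm op 5 (fun v => t16 (cur S) (v 0) (v 1) (v 2) (v 3) (v 4)) :=
  comp6 hS (IsTerm.proj 1) (IsTerm.proj 3) (IsTerm.proj 1) (IsTerm.proj 0) (IsTerm.proj 4) (IsTerm.proj 2)

theorem t17_term {S : (Fin 6 → A) → A} (hS : IsTerm op 6 S) :
    IsTerm op 5 (fun v => t17 (cur S) (v 0) (v 1) (v 2) (v 3) (v 4)) :=
  comp6 hS (t9_term hS) (t2_term hS) (t5_term hS) (t7_term hS) (t16_term hS) (t1_term hS)

theorem t18_term {S : (Fin 6 → A) → A} (hS : IsTerm op 6 S) :
    IsTerm op 5 (fun v => t18 (cur S) (v 0) (v 1) (v 2) (v 3) (v 4)) :=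
  comp6 hS (t6_term hS) (t10_term hS) (t11_term hS) (t14_term hS) (t15_term hS) (t17_term hS)

theorem t19_term {S : (Fin 6 → A) → A} (hS : IsTerm op 6 S) :
    IsTerm op 5 (fun v => t19 (cur S) (v 0) (v 1) (v 2) (v 3) (v 4)) :=
  comp6 hS (t7_term hS) (t5_term hS) (t1_term hS) (t16_term hS) (t9_term hS) (t2_term hS)

theorem t20_term {S : (Fin 6 → A) → A} (hS : IsTerm op 6 S) :
    IsTerm op 5 (fun v => t20 (cur S) (v 0) (v 1) (v 2) (v 3) (v 4)) :=
  comp6 hS (t0_term hS) (t1_term hS) (t2_term hS) (t12_term hS) (t4_term hS) (t5_term hS)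

theorem t21_term {S : (Fin 6 → A) → A} (hS : IsTerm op 6 S) :
    IsTerm op 5 (fun v => t21 (cur S) (v 0) (v 1) (v 2) (v 3) (v 4)) :=
  comp6 hS (t2_term hS) (t12_term hS) (t4_term hS) (t5_term hS) (t1_term hS) (t0_term hS)

theorem t22_term {S : (Fin 6 → A) → A} (hS : IsTerm op 6 S) :
    IsTerm op 5 (fun v => t22 (cur S) (v 0) (v 1) (v 2) (v 3) (v 4)) :=
  comp6 hS (IsTerm.proj 1) (IsTerm.proj 0) (IsTerm.proj 4) (IsTerm.proj 2) (IsTerm.proj 3) (IsTerm.proj 1)

theorem t23_term {S : (Fin 6 → A) → A} (hS : IsTerm op 6 S) :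
    IsTerm op 5 (fun v => t23 (cur S) (v 0) (v 1) (v 2) (v 3) (v 4)) :=
  comp6 hS (t1_term hS) (t8_term hS) (t22_term hS) (t2_term hS) (t5_term hS) (t7_term hS)

theorem t24_term {S : (Fin 6 → A) → A} (hS : IsTerm op 6 S) :
    IsTerm op 5 (fun v => t24 (cur S) (v 0) (v 1) (v 2) (v 3) (v 4)) :=
  comp6 hS (t22_term hS) (t2_term hS) (t5_term hS) (t7_term hS) (t8_term hS) (t1_term hS)

theorem t25_term {S : (Fin 6 → A) → A} (hS : IsTerm op 6 S) :
    IsTerm op 5 (fun v => t25 (cur S) (v 0) (v 1) (v 2) (v 3) (v 4)) :=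
  comp6 hS (t4_term hS) (t5_term hS) (t1_term hS) (t0_term hS) (t3_term hS) (t2_term hS)

theorem t26_term {S : (Fin 6 → A) → A} (hS : IsTerm op 6 S) :
    IsTerm op 5 (fun v => t26 (cur S) (v 0) (v 1) (v 2) (v 3) (v 4)) :=
  comp6 hS (t19_term hS) (t20_term hS) (t21_term hS) (t23_term hS) (t24_term hS) (t25_term hS)

theorem t27_term {S : (Fin 6 → A) → A} (hS : IsTerm op 6 S) :
    IsTerm op 5 (fun v => t27 (cur S) (v 0) (v 1) (v 2) (v 3) (v 4)) :=
  comp6 hS (IsTerm.proj 4) (IsTerm.proj 2) (IsTerm.proj 0) (IsTerm.proj 1) (IsTerm.proj 2) (IsTerm.proj 4)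

theorem t28_term {S : (Fin 6 → A) → A} (hS : IsTerm op 6 S) :
    IsTerm op 5 (fun v => t28 (cur S) (v 0) (v 1) (v 2) (v 3) (v 4)) :=
  comp6 hS (IsTerm.proj 2) (IsTerm.proj 1) (IsTerm.proj 2) (IsTerm.proj 4) (IsTerm.proj 1) (IsTerm.proj 3)

theorem t29_term {S : (Fin 6 → A) → A} (hS : IsTerm op 6 S) :
    IsTerm op 5 (fun v => t29 (cur S) (v 0) (v 1) (v 2) (v 3) (v 4)) :=
  comp6 hS (IsTerm.proj 4) (IsTerm.proj 2) (IsTerm.proj 3) (IsTerm.proj 1) (IsTerm.proj 2) (IsTerm.proj 1)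

theorem t30_term {S : (Fin 6 → A) → A} (hS : IsTerm op 6 S) :
    IsTerm op 5 (fun v => t30 (cur S) (v 0) (v 1) (v 2) (v 3) (v 4)) :=
  comp6 hS (IsTerm.proj 0) (IsTerm.proj 1) (IsTerm.proj 0) (IsTerm.proj 1) (IsTerm.proj 2) (IsTerm.proj 4)

theorem t31_term {S : (Fin 6 → A) → A} (hS : IsTerm op 6 S) :
    IsTerm op 5 (fun v => t31 (cur S) (v 0) (v 1) (v 2) (v 3) (v 4)) :=
  comp6 hS (IsTerm.proj 2) (IsTerm.proj 4) (IsTerm.proj 2) (IsTerm.proj 4) (IsTerm.proj 1) (IsTerm.proj 0)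

theorem t32_term {S : (Fin 6 → A) → A} (hS : IsTerm op 6 S) :
    IsTerm op 5 (fun v => t32 (cur S) (v 0) (v 1) (v 2) (v 3) (v 4)) :=
  comp6 hS (IsTerm.proj 3) (IsTerm.proj 1) (IsTerm.proj 0) (IsTerm.proj 1) (IsTerm.proj 2) (IsTerm.proj 4)

theorem t33_term {S : (Fin 6 → A) → A} (hS : IsTerm op 6 S) :
    IsTerm op 5 (fun v => t33 (cur S) (v 0) (v 1) (v 2) (v 3) (v 4)) :=
  comp6 hS (t27_term hS) (t28_term hS) (t29_term hS) (t30_term hS) (t31_term hS) (t32_term hS)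

theorem t34_term {S : (Fin 6 → A) → A} (hS : IsTerm op 6 S) :
    IsTerm op 5 (fun v => t34 (cur S) (v 0) (v 1) (v 2) (v 3) (v 4)) :=
  comp6 hS (IsTerm.proj 4) (IsTerm.proj 2) (IsTerm.proj 3) (IsTerm.proj 1) (IsTerm.proj 0) (IsTerm.proj 1)

theorem t35_term {S : (Fin 6 → A) → A} (hS : IsTerm op 6 S) :
    IsTerm op 5 (fun v => t35 (cur S) (v 0) (v 1) (v 2) (v 3) (v 4)) :=
  comp6 hS (IsTerm.proj 0) (IsTerm.proj 1) (IsTerm.proj 2) (IsTerm.proj 4) (IsTerm.proj 1) (IsTerm.proj 3)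

theorem t36_term {S : (Fin 6 → A) → A} (hS : IsTerm op 6 S) :
    IsTerm op 5 (fun v => t36 (cur S) (v 0) (v 1) (v 2) (v 3) (v 4)) :=
  comp6 hS (t32_term hS) (t34_term hS) (t32_term hS) (t35_term hS) (t34_term hS) (t35_term hS)

theorem t37_term {S : (Fin 6 → A) → A} (hS : IsTerm op 6 S) :
    IsTerm op 5 (fun v => t37 (cur S) (v 0) (v 1) (v 2) (v 3) (v 4)) :=
  comp6 hS (IsTerm.proj 3) (IsTerm.proj 1) (IsTerm.proj 2) (IsTerm.proj 1) (IsTerm.proj 2) (IsTerm.proj 4)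

theorem t38_term {S : (Fin 6 → A) → A} (hS : IsTerm op 6 S) :
    IsTerm op 5 (fun v => t38 (cur S) (v 0) (v 1) (v 2) (v 3) (v 4)) :=
  comp6 hS (t28_term hS) (t37_term hS) (t28_term hS) (t29_term hS) (t37_term hS) (t29_term hS)

theorem t39_term {S : (Fin 6 → A) → A} (hS : IsTerm op 6 S) :
    IsTerm op 5 (fun v => t39 (cur S) (v 0) (v 1) (v 2) (v 3) (v 4)) :=
  comp6 hS (IsTerm.proj 0) (IsTerm.proj 1) (IsTerm.proj 0) (IsTerm.proj 4) (IsTerm.proj 2) (IsTerm.proj 4)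

theorem t40_term {S : (Fin 6 → A) → A} (hS : IsTerm op 6 S) :
    IsTerm op 5 (fun v => t40 (cur S) (v 0) (v 1) (v 2) (v 3) (v 4)) :=
  comp6 hS (IsTerm.proj 0) (IsTerm.proj 1) (IsTerm.proj 2) (IsTerm.proj 4) (IsTerm.proj 1) (IsTerm.proj 0)

theorem t41_term {S : (Fin 6 → A) → A} (hS : IsTerm op 6 S) :
    IsTerm op 5 (fun v => t41 (cur S) (v 0) (v 1) (v 2) (v 3) (v 4)) :=
  comp6 hS (IsTerm.proj 4) (IsTerm.proj 2) (IsTerm.proj 0) (IsTerm.proj 1) (IsTerm.proj 0) (IsTerm.proj 4)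

theorem t42_term {S : (Fin 6 → A) → A} (hS : IsTerm op 6 S) :
    IsTerm op 5 (fun v => t42 (cur S) (v 0) (v 1) (v 2) (v 3) (v 4)) :=
  comp6 hS (t34_term hS) (t39_term hS) (t40_term hS) (t32_term hS) (t35_term hS) (t41_term hS)

theorem t43_term {S : (Fin 6 → A) → A} (hS : IsTerm op 6 S) :
    IsTerm op 5 (fun v => t43 (cur S) (v 0) (v 1) (v 2) (v 3) (v 4)) :=
  comp6 hS (IsTerm.proj 2) (IsTerm.proj 1) (IsTerm.proj 2) (IsTerm.proj 4) (IsTerm.proj 1) (IsTerm.proj 0)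

theorem t44_term {S : (Fin 6 → A) → A} (hS : IsTerm op 6 S) :
    IsTerm op 5 (fun v => t44 (cur S) (v 0) (v 1) (v 2) (v 3) (v 4)) :=
  comp6 hS (IsTerm.proj 0) (IsTerm.proj 1) (IsTerm.proj 2) (IsTerm.proj 4) (IsTerm.proj 2) (IsTerm.proj 4)

theorem t45_term {S : (Fin 6 → A) → A} (hS : IsTerm op 6 S) :
    IsTerm op 5 (fun v => t45 (cur S) (v 0) (v 1) (v 2) (v 3) (v 4)) :=
  comp6 hS (t43_term hS) (t37_term hS) (t28_term hS) (t27_term hS) (t44_term hS) (t29_term hS)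

theorem t46_term {S : (Fin 6 → A) → A} (hS : IsTerm op 6 S) :
    IsTerm op 5 (fun v => t46 (cur S) (v 0) (v 1) (v 2) (v 3) (v 4)) :=
  comp6 hS (t29_term hS) (t28_term hS) (t29_term hS) (t32_term hS) (t28_term hS) (t32_term hS)

theorem t47_term {S : (Fin 6 → A) → A} (hS : IsTerm op 6 S) :
    IsTerm op 5 (fun v => t47 (cur S) (v 0) (v 1) (v 2) (v 3) (v 4)) :=
  comp6 hS (t33_term hS) (t36_term hS) (t38_term hS) (t42_term hS) (t45_term hS) (t46_term hS)

theorem t48_term {S : (Fin 6 → A) → A} (hS : IsTerm op 6 S) :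
    IsTerm op 5 (fun v => t48 (cur S) (v 0) (v 1) (v 2) (v 3) (v 4)) :=
  comp6 hS (IsTerm.proj 2) (IsTerm.proj 4) (IsTerm.proj 1) (IsTerm.proj 0) (IsTerm.proj 1) (IsTerm.proj 2)

theorem t49_term {S : (Fin 6 → A) → A} (hS : IsTerm op 6 S) :
    IsTerm op 5 (fun v => t49 (cur S) (v 0) (v 1) (v 2) (v 3) (v 4)) :=
  comp6 hS (IsTerm.proj 1) (IsTerm.proj 0) (IsTerm.proj 1) (IsTerm.proj 2) (IsTerm.proj 3) (IsTerm.proj 2)

theorem t50_term {S : (Fin 6 → A) → A} (hS : IsTerm op 6 S) :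
    IsTerm op 5 (fun v => t50 (cur S) (v 0) (v 1) (v 2) (v 3) (v 4)) :=
  comp6 hS (IsTerm.proj 1) (IsTerm.proj 2) (IsTerm.proj 3) (IsTerm.proj 2) (IsTerm.proj 0) (IsTerm.proj 1)

theorem t51_term {S : (Fin 6 → A) → A} (hS : IsTerm op 6 S) :
    IsTerm op 5 (fun v => t51 (cur S) (v 0) (v 1) (v 2) (v 3) (v 4)) :=
  comp6 hS (IsTerm.proj 1) (IsTerm.proj 0) (IsTerm.proj 1) (IsTerm.proj 0) (IsTerm.proj 4) (IsTerm.proj 2)

theorem t52_term {S : (Fin 6 → A) → A} (hS : IsTerm op 6 S) :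
    IsTerm op 5 (fun v => t52 (cur S) (v 0) (v 1) (v 2) (v 3) (v 4)) :=
  comp6 hS (IsTerm.proj 1) (IsTerm.proj 2) (IsTerm.proj 4) (IsTerm.proj 2) (IsTerm.proj 0) (IsTerm.proj 1)

theorem t53_term {S : (Fin 6 → A) → A} (hS : IsTerm op 6 S) :
    IsTerm op 5 (fun v => t53 (cur S) (v 0) (v 1) (v 2) (v 3) (v 4)) :=
  comp6 hS (IsTerm.proj 2) (IsTerm.proj 3) (IsTerm.proj 1) (IsTerm.proj 0) (IsTerm.proj 1) (IsTerm.proj 2)

theorem t54_term {S : (Fin 6 → A) → A} (hS : IsTerm op 6 S) :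
    IsTerm op 5 (fun v => t54 (cur S) (v 0) (v 1) (v 2) (v 3) (v 4)) :=
  comp6 hS (t48_term hS) (t49_term hS) (t50_term hS) (t51_term hS) (t52_term hS) (t53_term hS)

theorem t55_term {S : (Fin 6 → A) → A} (hS : IsTerm op 6 S) :
    IsTerm op 5 (fun v => t55 (cur S) (v 0) (v 1) (v 2) (v 3) (v 4)) :=
  comp6 hS (IsTerm.proj 2) (IsTerm.proj 3) (IsTerm.proj 1) (IsTerm.proj 0) (IsTerm.proj 4) (IsTerm.proj 2)

theorem t56_term {S : (Fin 6 → A) → A} (hS : IsTerm op 6 S) :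
    IsTerm op 5 (fun v => t56 (cur S) (v 0) (v 1) (v 2) (v 3) (v 4)) :=
  comp6 hS (IsTerm.proj 4) (IsTerm.proj 2) (IsTerm.proj 3) (IsTerm.proj 2) (IsTerm.proj 0) (IsTerm.proj 1)

theorem t57_term {S : (Fin 6 → A) → A} (hS : IsTerm op 6 S) :
    IsTerm op 5 (fun v => t57 (cur S) (v 0) (v 1) (v 2) (v 3) (v 4)) :=
  comp6 hS (t55_term hS) (t56_term hS) (t55_term hS) (t49_term hS) (t56_term hS) (t49_term hS)

theorem t58_term {S : (Fin 6 → A) → A} (hS : IsTerm op 6 S) :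
    IsTerm op 5 (fun v => t58 (cur S) (v 0) (v 1) (v 2) (v 3) (v 4)) :=
  comp6 hS (t49_term hS) (t53_term hS) (t49_term hS) (t50_term hS) (t53_term hS) (t50_term hS)

theorem t59_term {S : (Fin 6 → A) → A} (hS : IsTerm op 6 S) :
    IsTerm op 5 (fun v => t59 (cur S) (v 0) (v 1) (v 2) (v 3) (v 4)) :=
  comp6 hS (IsTerm.proj 1) (IsTerm.proj 0) (IsTerm.proj 4) (IsTerm.proj 2) (IsTerm.proj 4) (IsTerm.proj 2)

theorem t60_term {S : (Fin 6 → A) → A} (hS : IsTerm op 6 S) :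
    IsTerm op 5 (fun v => t60 (cur S) (v 0) (v 1) (v 2) (v 3) (v 4)) :=
  comp6 hS (IsTerm.proj 4) (IsTerm.proj 0) (IsTerm.proj 4) (IsTerm.proj 2) (IsTerm.proj 0) (IsTerm.proj 1)

theorem t61_term {S : (Fin 6 → A) → A} (hS : IsTerm op 6 S) :
    IsTerm op 5 (fun v => t61 (cur S) (v 0) (v 1) (v 2) (v 3) (v 4)) :=
  comp6 hS (IsTerm.proj 1) (IsTerm.proj 0) (IsTerm.proj 4) (IsTerm.proj 2) (IsTerm.proj 3) (IsTerm.proj 2)

theorem t62_term {S : (Fin 6 → A) → A} (hS : IsTerm op 6 S) :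
    IsTerm op 5 (fun v => t62 (cur S) (v 0) (v 1) (v 2) (v 3) (v 4)) :=
  comp6 hS (IsTerm.proj 2) (IsTerm.proj 4) (IsTerm.proj 1) (IsTerm.proj 0) (IsTerm.proj 4) (IsTerm.proj 2)

theorem t63_term {S : (Fin 6 → A) → A} (hS : IsTerm op 6 S) :
    IsTerm op 5 (fun v => t63 (cur S) (v 0) (v 1) (v 2) (v 3) (v 4)) :=
  comp6 hS (t56_term hS) (t59_term hS) (t60_term hS) (t55_term hS) (t61_term hS) (t62_term hS)

theorem t64_term {S : (Fin 6 → A) → A} (hS : IsTerm op 6 S) :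
    IsTerm op 5 (fun v => t64 (cur S) (v 0) (v 1) (v 2) (v 3) (v 4)) :=
  comp6 hS (IsTerm.proj 1) (IsTerm.proj 0) (IsTerm.proj 1) (IsTerm.proj 2) (IsTerm.proj 4) (IsTerm.proj 2)

theorem t65_term {S : (Fin 6 → A) → A} (hS : IsTerm op 6 S) :
    IsTerm op 5 (fun v => t65 (cur S) (v 0) (v 1) (v 2) (v 3) (v 4)) :=
  comp6 hS (t60_term hS) (t55_term hS) (t49_term hS) (t62_term hS) (t64_term hS) (t56_term hS)

theorem t66_term {S : (Fin 6 → A) → A} (hS : IsTerm op 6 S) :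
    IsTerm op 5 (fun v => t66 (cur S) (v 0) (v 1) (v 2) (v 3) (v 4)) :=
  comp6 hS (t56_term hS) (t61_term hS) (t56_term hS) (t55_term hS) (t61_term hS) (t55_term hS)

theorem t67_term {S : (Fin 6 → A) → A} (hS : IsTerm op 6 S) :
    IsTerm op 5 (fun v => t67 (cur S) (v 0) (v 1) (v 2) (v 3) (v 4)) :=
  comp6 hS (t54_term hS) (t57_term hS) (t58_term hS) (t63_term hS) (t65_term hS) (t66_term hS)

theorem t68_term {S : (Fin 6 → A) → A} (hS : IsTerm op 6 S) :
    IsTerm op 5 (fun v => t68 (cur S) (v 0) (v 1) (v 2) (v 3) (v 4)) :=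
  comp6 hS (t27_term hS) (t28_term hS) (t29_term hS) (t39_term hS) (t31_term hS) (t32_term hS)

theorem t69_term {S : (Fin 6 → A) → A} (hS : IsTerm op 6 S) :
    IsTerm op 5 (fun v => t69 (cur S) (v 0) (v 1) (v 2) (v 3) (v 4)) :=
  comp6 hS (IsTerm.proj 0) (IsTerm.proj 4) (IsTerm.proj 2) (IsTerm.proj 4) (IsTerm.proj 1) (IsTerm.proj 0)

theorem t70_term {S : (Fin 6 → A) → A} (hS : IsTerm op 6 S) :
    IsTerm op 5 (fun v => t70 (cur S) (v 0) (v 1) (v 2) (v 3) (v 4)) :=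
  comp6 hS (t34_term hS) (t39_term hS) (t69_term hS) (t32_term hS) (t35_term hS) (t41_term hS)

theorem t71_term {S : (Fin 6 → A) → A} (hS : IsTerm op 6 S) :
    IsTerm op 5 (fun v => t71 (cur S) (v 0) (v 1) (v 2) (v 3) (v 4)) :=
  comp6 hS (IsTerm.proj 0) (IsTerm.proj 1) (IsTerm.proj 2) (IsTerm.proj 1) (IsTerm.proj 2) (IsTerm.proj 4)

theorem t72_term {S : (Fin 6 → A) → A} (hS : IsTerm op 6 S) :
    IsTerm op 5 (fun v => t72 (cur S) (v 0) (v 1) (v 2) (v 3) (v 4)) :=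
  comp6 hS (t31_term hS) (t37_term hS) (t28_term hS) (t27_term hS) (t71_term hS) (t29_term hS)

theorem t73_term {S : (Fin 6 → A) → A} (hS : IsTerm op 6 S) :
    IsTerm op 5 (fun v => t73 (cur S) (v 0) (v 1) (v 2) (v 3) (v 4)) :=
  comp6 hS (t36_term hS) (t68_term hS) (t70_term hS) (t38_term hS) (t46_term hS) (t72_term hS)

theorem t74_term {S : (Fin 6 → A) → A} (hS : IsTerm op 6 S) :
    IsTerm op 5 (fun v => t74 (cur S) (v 0) (v 1) (v 2) (v 3) (v 4)) :=
  comp6 hS (t48_term hS) (t49_term hS) (t50_term hS) (t64_term hS) (t52_term hS) (t53_term hS)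

theorem t75_term {S : (Fin 6 → A) → A} (hS : IsTerm op 6 S) :
    IsTerm op 5 (fun v => t75 (cur S) (v 0) (v 1) (v 2) (v 3) (v 4)) :=
  comp6 hS (IsTerm.proj 4) (IsTerm.proj 2) (IsTerm.proj 4) (IsTerm.proj 2) (IsTerm.proj 0) (IsTerm.proj 1)

theorem t76_term {S : (Fin 6 → A) → A} (hS : IsTerm op 6 S) :
    IsTerm op 5 (fun v => t76 (cur S) (v 0) (v 1) (v 2) (v 3) (v 4)) :=
  comp6 hS (t56_term hS) (t59_term hS) (t75_term hS) (t55_term hS) (t61_term hS) (t62_term hS)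

theorem t77_term {S : (Fin 6 → A) → A} (hS : IsTerm op 6 S) :
    IsTerm op 5 (fun v => t77 (cur S) (v 0) (v 1) (v 2) (v 3) (v 4)) :=
  comp6 hS (t75_term hS) (t55_term hS) (t49_term hS) (t62_term hS) (t51_term hS) (t56_term hS)

theorem t78_term {S : (Fin 6 → A) → A} (hS : IsTerm op 6 S) :
    IsTerm op 5 (fun v => t78 (cur S) (v 0) (v 1) (v 2) (v 3) (v 4)) :=
  comp6 hS (t57_term hS) (t74_term hS) (t76_term hS) (t58_term hS) (t66_term hS) (t77_term hS)

theorem t79_term {S : (Fin 6 → A) → A} (hS : IsTerm op 6 S) :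
    IsTerm op 5 (fun v => t79 (cur S) (v 0) (v 1) (v 2) (v 3) (v 4)) :=
  comp6 hS (t18_term hS) (t26_term hS) (t47_term hS) (t67_term hS) (t73_term hS) (t78_term hS)

end term

end Pool.Agent.H234EP.Siggers
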